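import Pool.Agent.POM31.Meas

set_option autoImplicit false

open MeasureTheory ProbabilityTheory Filter Topology

namespace Pool.Agent.POM31

variable {Ω : Type*}

/-- The event that the configuration with `x` added satisfies the condition `HH`. -/
def GG (A : ℕ → Set Ω) (q : ℕ → ℝ) (M k x a : ℕ) : Set Ω :=
  {ω | HH q M k x a (ins (fun m => ω ∈ A m) x)}

lemma GG_sup (A : ℕ → Set Ω) (q : ℕ → ℝ) (M k x a : ℕ) :
    MeasurableSet[⨆ n ∈ ({x}ᶜ : Set ℕ), MeasurableSpace.generateFrom {A n}]
      (GG A q M k x a) := by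
  have h1 : @Measurable Ω (ℕ → Prop) (⨆ n ∈ ({x}ᶜ : Set ℕ), MeasurableSpace.generateFrom {A n}) _
      (fun ω => ins (fun m => ω ∈ A m) x) := by
    let _ : MeasurableSpace Ω := ⨆ n ∈ ({x}ᶜ : Set ℕ), MeasurableSpace.generateFrom {A n}
    refine measurable_pi_iff.mpr (fun m => ?_)
    by_cases hm : m = x
    · have : (fun ω => ins (fun m => ω ∈ A m) x m) = fun _ : Ω => True := by
        ext ω
        simp [ins, hm]
      rw [this]
      exact measurable_const
    · have : (fun ω => ins (fun m => ω ∈ A m) x m) = fun ω : Ω => ω ∈ A m := by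
        ext ω
        simp [ins, hm]
      rw [this]
      refine measurableSet_setOfPred.mp ?_
      have hle : MeasurableSpace.generateFrom {A m} ≤
          ⨆ n ∈ ({x}ᶜ : Set ℕ), MeasurableSpace.generateFrom {A n} :=
        le_iSup₂_of_le (f := fun n (_ : n ∈ ({x}ᶜ : Set ℕ)) => MeasurableSpace.generateFrom {A n})
          m (by simpa using hm) le_rfl
      exact hle _ (MeasurableSpace.measurableSet_generateFrom (Set.mem_singleton _))
  exact h1 (measurableSet_setOfPred.mpr (meas_HH q M k x a))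

variable [MeasurableSpace Ω]

lemma GG_meas {A : ℕ → Set Ω} (hA : ∀ n, MeasurableSet (A n)) (q : ℕ → ℝ) (M k x a : ℕ) :
    MeasurableSet (GG A q M k x a) := by
  have h : (⨆ n ∈ ({x}ᶜ : Set ℕ), MeasurableSpace.generateFrom {A n}) ≤ ‹MeasurableSpace Ω› :=
    iSup₂_le (fun n _ => CRM31.gen_le hA n)
  exact h _ (GG_sup A q M k x a)

/-- Independence of the selection of `x` and the event `GG`. -/
lemma GG_indep {μ : Measure Ω} {A : ℕ → Set Ω} (hA : ∀ n, MeasurableSet (A n))
    (hind : iIndepSet A μ) (q : ℕ → ℝ) (M k x a : ℕ) :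
    μ (A x ∩ GG A q M k x a) = μ (A x) * μ (GG A q M k x a) ∧
      μ ((A x)ᶜ ∩ GG A q M k x a) = μ ((A x)ᶜ) * μ (GG A q M k x a) := by
  have hdis : Disjoint ({x} : Set ℕ) ({x}ᶜ : Set ℕ) := disjoint_compl_right
  have hindep := indep_iSup_of_disjoint (m := fun n => MeasurableSpace.generateFrom {A n})
    (CRM31.gen_le hA) ((iIndepSet_iff_iIndep A μ).mp hind) hdis
  have hle : MeasurableSpace.generateFrom {A x} ≤
      ⨆ n ∈ ({x} : Set ℕ), MeasurableSpace.generateFrom {A n} :=
    le_iSup₂_of_le (f := fun n (_ : n ∈ ({x} : Set ℕ)) => MeasurableSpace.generateFrom {A n})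
      x (Set.mem_singleton x) le_rfl
  have hm1 := hle _ (MeasurableSpace.measurableSet_generateFrom (Set.mem_singleton (A x)))
  have hm2 : MeasurableSet[⨆ n ∈ ({x} : Set ℕ), MeasurableSpace.generateFrom {A n}] (A x)ᶜ :=
    @MeasurableSet.compl Ω _ (⨆ n ∈ ({x} : Set ℕ), MeasurableSpace.generateFrom {A n}) hm1
  have h := (Indep_iff _ _ μ).mp hindep
  exact ⟨h _ _ hm1 (GG_sup A q M k x a), h _ _ hm2 (GG_sup A q M k x a)⟩

lemma change {μ : Measure Ω} [IsProbabilityMeasure μ] {A : ℕ → Set Ω}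
    (hA : ∀ n, MeasurableSet (A n)) (hind : iIndepSet A μ) {r : ℝ} (hr : 0 < r)
    (q : ℕ → ℝ) (M k x a : ℕ) (hx : k ≤ x → x < a → 1 ≤ r * (1 - μ.real (A x))) :
    μ (A x ∩ GG A q M k x a) ≤ ENNReal.ofReal r *
      (ENNReal.ofReal (μ.real (A x)) * μ ((A x)ᶜ ∩ GG A q M k x a)) := by
  obtain ⟨h1, h2⟩ := GG_indep hA hind q M k x a
  by_cases hk : k ≤ x ∧ x < a
  · have hq := hx hk.1 hk.2
    have h3 : μ ((A x)ᶜ) = ENNReal.ofReal (1 - μ.real (A x)) := by
      rw [← ofReal_measureReal, measureReal_compl (hA x)]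
      simp
    have h4 : μ (A x) = ENNReal.ofReal (μ.real (A x)) := (ofReal_measureReal).symm
    have h5 : (1 : ENNReal) ≤ ENNReal.ofReal r * ENNReal.ofReal (1 - μ.real (A x)) := by
      rw [← ENNReal.ofReal_mul hr.le, ← ENNReal.ofReal_one]
      exact ENNReal.ofReal_le_ofReal hq
    rw [h1, h2, h3]
    calc μ (A x) * μ (GG A q M k x a)
        = 1 * (ENNReal.ofReal (μ.real (A x)) * μ (GG A q M k x a)) := by rw [one_mul, ← h4]
      _ ≤ (ENNReal.ofReal r * ENNReal.ofReal (1 - μ.real (A x))) *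
          (ENNReal.ofReal (μ.real (A x)) * μ (GG A q M k x a)) := by
            exact mul_le_mul_left h5 _
      _ = _ := by ring
  · have h3 : GG A q M k x a = ∅ := by
      ext ω
      simp only [GG, Set.mem_ofPred_eq, Set.mem_empty_iff_false, iff_false]
      intro h
      exact hk ⟨h.2.2.2.2.1, h.2.2.2.2.2.2.1⟩
    rw [h3]
    simp

/-- The deletion probabilities are not too small. -/
def DelB (q : ℕ → ℝ) (θ : ℝ) (k : ℕ) : Prop :=
  16 ≤ k ∧ ∀ x, k ≤ x → q x ≤ 1 - θ / Real.log (Real.log x)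

lemma loglog_pos {x : ℕ} (hx : 16 ≤ x) :
    0 < Real.log x ∧ 0 < Real.log (Real.log x) := by
  have h1 : (3 : ℝ) ≤ x := by
    have : (16 : ℝ) ≤ x := by exact_mod_cast hx
    linarith
  have h2 : 1 < Real.log x := by
    refine (Real.lt_log_iff_exp_lt (by linarith)).mpr ?_
    have := Real.exp_one_lt_d9
    linarith
  exact ⟨by linarith, Real.log_pos h2⟩

/-- The sum over all good elements of `1 / (log a * log (log a))` is integrable on the bad event. -/
lemma finite_sum {μ : Measure Ω} [IsProbabilityMeasure μ] {A : ℕ → Set Ω}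
    (hA : ∀ n, MeasurableSet (A n)) (hind : iIndepSet A μ) {θ : ℝ} (hθ : 0 < θ) (M k : ℕ)
    (hk : DelB (fun n => μ.real (A n)) θ k) :
    ∀ᵐ ω ∂μ, ∑' p : ℕ × ℕ, (A p.2 ∩ GG A (fun n => μ.real (A n)) M k p.2 p.1).indicator
      (fun _ => ENNReal.ofReal (1 / (Real.log p.1 * Real.log (Real.log p.1)))) ω ≠ ⊤ := by
  set q : ℕ → ℝ := fun n => μ.real (A n) with hq
  set E : ℕ × ℕ → Set Ω := fun p => A p.2 ∩ GG A q M k p.2 p.1 with hE
  set F : ℕ × ℕ → Set Ω := fun p => (A p.2)ᶜ ∩ GG A q M k p.2 p.1 with hF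
  have hEm : ∀ p, MeasurableSet (E p) := fun p => (hA p.2).inter (GG_meas hA _ _ _ _ _)
  have hFm : ∀ p, MeasurableSet (F p) := fun p => (hA p.2).compl.inter (GG_meas hA _ _ _ _ _)
  set l : ℕ → ENNReal := fun a => ENNReal.ofReal (1 / Real.log a) with hl
  set l' : ℕ → ENNReal := fun a =>
    ENNReal.ofReal (1 / (Real.log a * Real.log (Real.log a))) with hl'
  have hmeasE : ∀ p : ℕ × ℕ, Measurable ((E p).indicator (fun _ => l' p.1)) := fun p =>
    measurable_const.indicator (hEm p)
  have hmeasF : ∀ p : ℕ × ℕ, Measurable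
      ((F p).indicator (fun _ => l p.1 * ENNReal.ofReal (q p.2))) := fun p =>
    measurable_const.indicator (hFm p)
  have hint : ∀ (s : Set Ω) (c : ENNReal), MeasurableSet s →
      ∫⁻ ω, s.indicator (fun _ => c) ω ∂μ = c * μ s := by
    intro s c hs
    rw [lintegral_indicator hs]
    simp
  have hbound : ∫⁻ ω, ∑' p : ℕ × ℕ, (E p).indicator (fun _ => l' p.1) ω ∂μ ≤
      ENNReal.ofReal (1 / θ) * 8 := by
    rw [lintegral_tsum (fun p => (hmeasE p).aemeasurable)]
    have h1 : ∀ p : ℕ × ℕ, ∫⁻ ω, (E p).indicator (fun _ => l' p.1) ω ∂μ ≤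
        ENNReal.ofReal (1 / θ) *
          ∫⁻ ω, (F p).indicator (fun _ => l p.1 * ENNReal.ofReal (q p.2)) ω ∂μ := by
      intro p
      rw [hint _ _ (hEm p), hint _ _ (hFm p)]
      rcases le_or_gt p.1 16 with ha | ha
      · -- nothing happens for small `a`
        have h3 : GG A q M k p.2 p.1 = ∅ := by
          ext ω
          simp only [GG, Set.mem_ofPred_eq, Set.mem_empty_iff_false, iff_false]
          intro h
          have h4 := h.2.2.2.2.1
          have h5 := h.2.2.2.2.2.2.1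
          have h6 := hk.1
          omega
        simp [hE, h3]
      obtain ⟨hla, hlla⟩ := loglog_pos ha.le
      set r : ℝ := Real.log (Real.log p.1) / θ with hr
      have hrpos : 0 < r := by positivity
      have h2 := change hA hind hrpos q M k p.2 p.1 (fun hkx hxa => by
        have h3 := hk.2 p.2 hkx
        obtain ⟨hlx, hllx⟩ := loglog_pos (le_trans hk.1 hkx)
        have h4 : θ / Real.log (Real.log p.2) ≤ 1 - μ.real (A p.2) := by
          simp only [hq] at h3
          linarith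
        have hxpos : (0 : ℝ) < p.2 := by
          have := hk.1
          have : 0 < p.2 := by omega
          exact_mod_cast this
        have h5 : Real.log (Real.log p.2) ≤ Real.log (Real.log p.1) := by
          refine Real.log_le_log hlx (Real.log_le_log hxpos ?_)
          exact_mod_cast hxa.le
        have h6 : 1 ≤ r * (θ / Real.log (Real.log p.2)) := by
          rw [hr]
          have : Real.log (Real.log p.1) / θ * (θ / Real.log (Real.log p.2)) =
              Real.log (Real.log p.1) / Real.log (Real.log p.2) := by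
            field_simp
          rw [this, le_div_iff₀ hllx]
          linarith
        exact le_trans h6 (mul_le_mul_of_nonneg_left h4 hrpos.le))
      have h7 : l' p.1 * ENNReal.ofReal r = ENNReal.ofReal (1 / θ) * l p.1 := by
        simp only [hl', hl]
        rw [← ENNReal.ofReal_mul (by positivity), ← ENNReal.ofReal_mul (by positivity)]
        congr 1
        rw [hr]
        field_simp
      calc l' p.1 * μ (E p) ≤ l' p.1 * (ENNReal.ofReal r *
            (ENNReal.ofReal (μ.real (A p.2)) * μ (F p))) := mul_le_mul_right h2 _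
        _ = (l' p.1 * ENNReal.ofReal r) * (ENNReal.ofReal (μ.real (A p.2)) * μ (F p)) := by ring
        _ = _ := by rw [h7]; simp only [hq]; ring
    refine le_trans (ENNReal.tsum_le_tsum h1) ?_
    rw [ENNReal.tsum_mul_left, ← lintegral_tsum (fun p => (hmeasF p).aemeasurable)]
    refine mul_le_mul_right ?_ _
    calc ∫⁻ ω, ∑' p : ℕ × ℕ, (F p).indicator (fun _ => l p.1 * ENNReal.ofReal (q p.2)) ω ∂μ
        ≤ ∫⁻ _ω, 8 ∂μ := by
          refine lintegral_mono (fun ω => ?_)
          refine le_trans (ENNReal.tsum_le_tsum (fun p => ?_))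
            (pointwise (q := q) (fun n => measureReal_nonneg) M k (fun m => ω ∈ A m))
          by_cases h : ω ∈ F p
          · have h' : DD q M k p.2 p.1 (fun m => ω ∈ A m) := h
            rw [Set.indicator_of_mem h, if_pos h']
          · rw [Set.indicator_of_notMem h]
            exact bot_le
      _ = 8 := by simp
  have hfin : ∫⁻ ω, ∑' p : ℕ × ℕ, (E p).indicator (fun _ => l' p.1) ω ∂μ ≠ ⊤ := by
    refine ne_top_of_le_ne_top ?_ hbound
    exact ENNReal.mul_ne_top ENNReal.ofReal_ne_top (by norm_num)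
  have := ae_lt_top (Measurable.tsum hmeasE) hfin
  filter_upwards [this] with ω hω
  exact hω.ne

/-- Almost surely there are pairs with property (P) arbitrarily far out. -/
theorem ae_PP {μ : Measure Ω} [IsProbabilityMeasure μ] {A : ℕ → Set Ω}
    (hA : ∀ n, MeasurableSet (A n)) (hind : iIndepSet A μ) {θ : ℝ} (hθ : 0 < θ)
    (hk : ∀ᶠ x : ℕ in atTop, μ.real (A x) ≤ 1 - θ / Real.log (Real.log x))
    (hch : ∀ᵐ ω ∂μ, Cheb (fun m => ω ∈ A m))
    (hinf : ∀ᵐ ω ∂μ, (Set.ofPred (fun m => ω ∈ A m)).Infinite) :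
    ∀ᵐ ω ∂μ, ∀ M, ∃ a a', M ≤ a ∧ PP (fun m => ω ∈ A m) a a' := by
  obtain ⟨k, hk⟩ := eventually_atTop.mp (hk.and (eventually_ge_atTop 16))
  have hk' : DelB (fun n => μ.real (A n)) θ k := ⟨(hk k le_rfl).2, fun x hx => (hk x hx).1⟩
  have hfin : ∀ᵐ ω ∂μ, ∀ M : ℕ, ∑' p : ℕ × ℕ,
      (A p.2 ∩ GG A (fun n => μ.real (A n)) M k p.2 p.1).indicator
      (fun _ => ENNReal.ofReal (1 / (Real.log p.1 * Real.log (Real.log p.1)))) ω ≠ ⊤ :=
    ae_all_iff.mpr (fun M => finite_sum hA hind hθ M k hk')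
  filter_upwards [hch, hinf, hfin, ae_gap hA hind] with ω h1 h2 h3 h4 M
  by_contra hcon
  push Not at hcon
  obtain ⟨M₀, hM₀⟩ := h4
  set S : ℕ → Prop := fun m => ω ∈ A m with hS
  have hU : Unb S := by
    intro n
    obtain ⟨m, hm1, hm2⟩ := h2.exists_gt n
    exact ⟨m, hm2.le, hm1⟩
  set M₁ := max M M₀ with hM₁
  have hG : GapB (fun n => μ.real (A n)) M₁ S := fun a ha v hv h =>
    hM₀ a (le_trans (le_max_right _ _) ha) v hv h
  have hN : NoPP M₁ S := fun a a' ha h => hcon a a' (le_trans (le_max_left _ _) ha) h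
  obtain ⟨s, hs1, hs2⟩ := hU k
  have hdiv := diverge h2 h1 (max M₁ (s + 1))
  refine h3 M₁ ?_
  rw [← top_le_iff, ← hdiv]
  rw [ENNReal.tsum_prod (f := fun a x => (A x ∩ GG A (fun n => μ.real (A n)) M₁ k x a).indicator
      (fun _ => ENNReal.ofReal (1 / (Real.log a * Real.log (Real.log a)))) ω)]
  refine ENNReal.tsum_le_tsum (fun a => ?_)
  by_cases ha : a ∈ {a | max M₁ (s + 1) ≤ a ∧ Good S a}
  · rw [Set.indicator_of_mem ha]
    obtain ⟨ha1, ha2⟩ := ha
    have e1 := le_max_left M₁ (s + 1)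
    have e2 := le_max_right M₁ (s + 1)
    -- the predecessor of `a`
    classical
    obtain ⟨x, hx1, hx2, hx3, hx4⟩ : ∃ x, k ≤ x ∧ S x ∧ x < a ∧ ∀ m, x < m → m < a → ¬ S m := by
      set x := Nat.findGreatest S (a - 1) with hx
      have f1 : S x := Nat.findGreatest_spec (P := S) (show s ≤ a - 1 by omega) hs2
      have f2 : s ≤ x := Nat.le_findGreatest (show s ≤ a - 1 by omega) hs2
      have f3 : x ≤ a - 1 := Nat.findGreatest_le (a - 1)
      refine ⟨x, by omega, f1, by omega, fun m g1 g2 g3 => ?_⟩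
      have := Nat.le_findGreatest (P := S) (show m ≤ a - 1 by omega) g3
      omega
    have hins : ins S x = S := by
      ext m
      unfold ins
      constructor
      · rintro (h | h)
        · exact h
        · rw [h]; exact hx2
      · exact Or.inl
    have hmem : ω ∈ A x ∩ GG A (fun n => μ.real (A n)) M₁ k x a := by
      refine ⟨hx2, ?_⟩
      show HH (fun n => μ.real (A n)) M₁ k x a (ins S x)
      rw [hins]
      exact ⟨hU, hG, hN, by omega, hx1, ha2, hx3, hx4⟩
    refine le_trans (le_of_eq ?_) (ENNReal.le_tsum x)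
    rw [Set.indicator_of_mem hmem]
  · rw [Set.indicator_of_notMem ha]
    exact bot_le

/-- Chebyshev type bounds force infinitely many elements. -/
lemma infinite_of_cheb {S : ℕ → Prop} (h : Cheb S) : (Set.ofPred S).Infinite := by
  classical
  intro hfin
  obtain ⟨c, C, hc, hcc⟩ := h
  set N := hfin.toFinset.card with hN
  have hcnt : ∀ x, cnt S 0 x ≤ N := by
    intro x
    unfold cnt
    refine Finset.card_le_card (fun m hm => ?_)
    rw [Set.Finite.mem_toFinset]
    exact (Finset.mem_filter.mp hm).2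
  -- `x / log x` is unbounded
  have h1 := Real.isLittleO_log_id_atTop.bound (show 0 < c / ((N : ℝ) + 1) by positivity)
  have h2 := tendsto_natCast_atTop_atTop (R := ℝ) |>.eventually h1
  obtain ⟨x, hx1, hx2, hx3⟩ := (h2.and (hcc.and (log_top'.eventually_gt_atTop 0))).exists
  simp only [id, Real.norm_eq_abs] at hx1
  rw [abs_of_pos hx3, abs_of_nonneg (Nat.cast_nonneg x)] at hx1
  have h3 : (cnt S 0 x : ℝ) ≤ N := by exact_mod_cast hcnt x
  have h4 : (N : ℝ) + 1 ≤ c * x / Real.log x := by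
    rw [le_div_iff₀ hx3]
    have h5 : ((N : ℝ) + 1) * (c / ((N : ℝ) + 1) * x) = c * x := by field_simp
    have h6 : (0 : ℝ) ≤ (N : ℝ) + 1 := by positivity
    nlinarith
  linarith [hx2.1]

end Pool.Agent.POM31
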