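import Pool.Agent.POM31.Hull

set_option autoImplicit false

open Filter Topology

namespace Pool.Agent.POM31

lemma log_le_two_sqrt {x : ℝ} (hx : 0 < x) : Real.log x ≤ 2 * Real.sqrt x := by
  have h1 : Real.log (Real.sqrt x) = Real.log x / 2 := Real.log_sqrt hx.le
  have h2 := Real.log_le_sub_one_of_pos (Real.sqrt_pos.mpr hx)
  linarith

lemma log_small {ε : ℝ} (hε : 0 < ε) : ∀ᶠ x : ℕ in atTop, Real.log x ≤ ε * x := by
  have h1 := Real.isLittleO_log_id_atTop.bound hε
  have h2 := tendsto_natCast_atTop_atTop (R := ℝ) |>.eventually h1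
  filter_upwards [h2] with x hx
  simp only [id, Real.norm_eq_abs] at hx
  rw [Nat.abs_cast] at hx
  exact le_trans (le_abs_self _) hx

/-- Weights supported on the primes. -/
lemma sum_primes {q : ℕ → ℝ} (hq0 : ∀ n, 0 ≤ q n) (hq1 : ∀ n, q n ≤ 1) {c₀ : ℝ} (hc₀ : 0 < c₀)
    (hp : ∀ᶠ p : ℕ in atTop, p.Prime → c₀ ≤ q p) (hnp : ∀ᶠ n : ℕ in atTop, ¬ n.Prime → q n = 0) :
    ∀ᶠ x : ℕ in atTop, (c₀ / 4) * x / Real.log x ≤ ∑ n ∈ Finset.range x, q n ∧
      ∑ n ∈ Finset.range x, q n ≤ 6 * x / Real.log x := by
  obtain ⟨k, hk⟩ := eventually_atTop.mp (hp.and hnp)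
  have hcount : ∀ x : ℕ, ((Finset.range x).filter Nat.Prime).card ≤ Nat.primeCounting x ∧
      Nat.primeCounting x ≤ ((Finset.range x).filter Nat.Prime).card + 1 := by
    intro x
    have h : Nat.count Nat.Prime x = ((Finset.range x).filter Nat.Prime).card :=
      Nat.count_eq_card_filter_range _ _
    rw [Nat.primeCounting, Nat.primeCounting', Nat.count_succ, h]
    split_ifs <;> omega
  filter_upwards [log_small (show 0 < 1 / (4 * ((k : ℝ) + 3)) by positivity),
    log_small (show 0 < 1 / ((k : ℝ) + 1) by positivity),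
    log_top'.eventually_ge_atTop 1, eventually_ge_atTop 3] with x h1 h2 h3 hx3
  have hx0 : (3 : ℝ) ≤ x := by exact_mod_cast hx3
  have hl0 : 0 < Real.log x := by linarith
  obtain ⟨e1, e2⟩ := hcount x
  have e1' : (((Finset.range x).filter Nat.Prime).card : ℝ) ≤ Nat.primeCounting x := by
    exact_mod_cast e1
  have e2' : (Nat.primeCounting x : ℝ) ≤ ((Finset.range x).filter Nat.Prime).card + 1 := by
    exact_mod_cast e2
  constructor
  · -- lower bound
    have f1 : c₀ * (((Finset.range x).filter Nat.Prime).card - (k : ℝ)) ≤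
        ∑ n ∈ Finset.range x, q n := by
      have g1 : ∀ n ∈ (Finset.range x).filter Nat.Prime, n ∉ Finset.range k → c₀ ≤ q n := by
        intro n hn hnk
        rw [Finset.mem_range, not_lt] at hnk
        exact (hk n hnk).1 (Finset.mem_filter.mp hn).2
      have g2 : ∑ n ∈ ((Finset.range x).filter Nat.Prime) \ (Finset.range k), c₀ ≤
          ∑ n ∈ Finset.range x, q n := by
        refine le_trans (Finset.sum_le_sum (fun n hn => ?_))
          (Finset.sum_le_sum_of_subset_of_nonneg (f := q)
            (s := ((Finset.range x).filter Nat.Prime) \ (Finset.range k)) ?_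
            (fun n _ _ => hq0 n))
        · exact g1 n (Finset.mem_sdiff.mp hn).1 (Finset.mem_sdiff.mp hn).2
        · exact Finset.sdiff_subset.trans (Finset.filter_subset _ _)
      rw [Finset.sum_const, nsmul_eq_mul] at g2
      have g3 : (((Finset.range x).filter Nat.Prime).card : ℝ) - k ≤
          ((((Finset.range x).filter Nat.Prime) \ (Finset.range k)).card : ℝ) := by
        have g4 := Finset.le_card_sdiff (Finset.range k) ((Finset.range x).filter Nat.Prime)
        rw [Finset.card_range] at g4
        have g5 : ((Finset.range x).filter Nat.Prime).card ≤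
          (((Finset.range x).filter Nat.Prime) \ (Finset.range k)).card + k := by omega
        have g6 : (((Finset.range x).filter Nat.Prime).card : ℝ) ≤
          ((((Finset.range x).filter Nat.Prime) \ (Finset.range k)).card : ℝ) + k := by
          exact_mod_cast g5
        linarith
      have := mul_le_mul_of_nonneg_left g3 hc₀.le
      linarith
    have f2 := Chebyshev.pi_ge x
    have f3 : Real.log ((x : ℝ) + 1) ≤ 2 * Real.log x := by
      have g1 : Real.log ((x : ℝ) + 1) ≤ Real.log ((x : ℝ) ^ 2) :=
        Real.log_le_log (by positivity) (by nlinarith)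
      rw [Real.log_pow] at g1
      exact_mod_cast g1
    have f4 : 1 / 4 * x / Real.log x + (k + 1) ≤ (Nat.primeCounting x : ℝ) := by
      refine le_trans ?_ f2
      rw [le_div_iff₀ hl0, add_mul, div_mul_cancel₀ _ hl0.ne']
      have g1 := Real.log_two_gt_d9
      have g2 : Real.log x * (4 * ((k : ℝ) + 3)) ≤ x := by
        have := mul_le_mul_of_nonneg_right h1 (show (0 : ℝ) ≤ 4 * ((k : ℝ) + 3) by positivity)
        have g3 : 1 / (4 * ((k : ℝ) + 3)) * (x : ℝ) * (4 * ((k : ℝ) + 3)) = x := by field_simp
        linarith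
      nlinarith
    have f5 : c₀ * (1 / 4 * x / Real.log x) ≤
        c₀ * (((Finset.range x).filter Nat.Prime).card - (k : ℝ)) :=
      mul_le_mul_of_nonneg_left (by linarith) hc₀.le
    have f6 : c₀ / 4 * x / Real.log x = c₀ * (1 / 4 * x / Real.log x) := by ring
    linarith
  · -- upper bound
    have f1 : ∑ n ∈ Finset.range x, q n ≤ k + ((Finset.range x).filter Nat.Prime).card := by
      have g1 : ∀ n ∈ Finset.range x, q n ≤ (if n < k then (1 : ℝ) else 0) +
          (if n.Prime then (1 : ℝ) else 0) := by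
        intro n _
        by_cases hnk : n < k
        · rw [if_pos hnk]
          have : (0 : ℝ) ≤ if n.Prime then (1 : ℝ) else 0 := by split_ifs <;> norm_num
          linarith [hq1 n]
        · rw [if_neg hnk]
          by_cases hpn : n.Prime
          · rw [if_pos hpn]; linarith [hq1 n]
          · rw [if_neg hpn, (hk n (not_lt.mp hnk)).2 hpn]; simp
      refine le_trans (Finset.sum_le_sum g1) ?_
      rw [Finset.sum_add_distrib, Finset.sum_boole, Finset.sum_boole]
      have g2 : ((Finset.range x).filter (fun n => n < k)).card ≤ k := by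
        have : (Finset.range x).filter (fun n => n < k) ⊆ Finset.range k := fun n hn =>
          Finset.mem_range.mpr (Finset.mem_filter.mp hn).2
        have := Finset.card_le_card this
        rwa [Finset.card_range] at this
      have g3 : (((Finset.range x).filter (fun n => n < k)).card : ℝ) ≤ k := by exact_mod_cast g2
      linarith
    have f2 := Chebyshev.pi_le_log4_mul_div (x := (x : ℝ)) (by linarith)
    rw [Nat.floor_natCast, Real.log_sqrt (Nat.cast_nonneg x)] at f2
    have f3 := log_le_two_sqrt (show (0 : ℝ) < x by linarith)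
    have f4 : Real.log 4 ≤ 1.4 := by
      have h4 : Real.log 4 = 2 * Real.log 2 := by
        rw [show (4 : ℝ) = 2 ^ 2 by norm_num, Real.log_pow]; norm_num
      have := Real.log_two_lt_d9
      rw [h4]; linarith
    have f5 : Real.sqrt x * Real.sqrt x = x := Real.mul_self_sqrt (Nat.cast_nonneg x)
    have f6 : Real.log 4 * x / (Real.log x / 2) = 2 * Real.log 4 * x / Real.log x := by
      field_simp
    rw [f6] at f2
    have f7 : (k : ℝ) + Real.sqrt x + 2 * Real.log 4 * x / Real.log x ≤ 6 * x / Real.log x := by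
      rw [le_div_iff₀ hl0, add_mul, div_mul_cancel₀ _ hl0.ne']
      have g1 : Real.log x * ((k : ℝ) + 1) ≤ x := by
        have := mul_le_mul_of_nonneg_right h2 (show (0 : ℝ) ≤ (k : ℝ) + 1 by positivity)
        have g3 : 1 / ((k : ℝ) + 1) * (x : ℝ) * ((k : ℝ) + 1) = x := by field_simp
        linarith
      have g2 : Real.sqrt x * Real.log x ≤ 2 * x := by
        have := mul_le_mul_of_nonneg_left f3 (Real.sqrt_nonneg x)
        nlinarith
      nlinarith
    linarith

/-- Weights of size `1 / log n`. -/
lemma sum_inv_log {q : ℕ → ℝ} (hq0 : ∀ n, 0 ≤ q n) (hq1 : ∀ n, q n ≤ 1) {c₁ c₂ : ℝ}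
    (hc₁ : 0 < c₁)
    (hq : ∀ᶠ n : ℕ in atTop, c₁ / Real.log n ≤ q n ∧ q n ≤ c₂ / Real.log n) :
    ∀ᶠ x : ℕ in atTop, (c₁ / 2) * x / Real.log x ≤ ∑ n ∈ Finset.range x, q n ∧
      ∑ n ∈ Finset.range x, q n ≤ (2 * |c₂| + 3) * x / Real.log x := by
  obtain ⟨k, hk⟩ := eventually_atTop.mp (hq.and (log_top'.eventually_ge_atTop 1))
  filter_upwards [log_small (show 0 < 1 / ((k : ℝ) + 1) by positivity),
    log_top'.eventually_ge_atTop 1, eventually_ge_atTop (2 * k), eventually_ge_atTop 3]
    with x h2 h3 hxk hx3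
  have hx0 : (3 : ℝ) ≤ x := by exact_mod_cast hx3
  have hl0 : 0 < Real.log x := by linarith
  have hxk' : 2 * (k : ℝ) ≤ x := by exact_mod_cast hxk
  constructor
  · have f1 : ∑ n ∈ Finset.Ico k x, c₁ / Real.log x ≤ ∑ n ∈ Finset.range x, q n := by
      have f2 : ∑ n ∈ Finset.Ico k x, q n ≤ ∑ n ∈ Finset.range x, q n := by
        refine Finset.sum_le_sum_of_subset_of_nonneg ?_ (fun n _ _ => hq0 n)
        intro n hn
        exact Finset.mem_range.mpr (Finset.mem_Ico.mp hn).2
      refine le_trans (Finset.sum_le_sum (fun n hn => ?_)) f2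
      obtain ⟨g1, g2⟩ := Finset.mem_Ico.mp hn
      obtain ⟨⟨g3, -⟩, g4⟩ := hk n g1
      refine le_trans ?_ g3
      have g5 : 0 < Real.log n := by linarith
      have g6 : (0 : ℝ) < n := by
        by_contra hcon
        have : (n : ℝ) = 0 := le_antisymm (not_lt.mp hcon) (Nat.cast_nonneg _)
        rw [this, Real.log_zero] at g5
        exact lt_irrefl _ g5
      have g7 : Real.log n ≤ Real.log x := Real.log_le_log g6 (by exact_mod_cast g2.le)
      exact div_le_div_of_nonneg_left hc₁.le g5 g7
    rw [Finset.sum_const, nsmul_eq_mul, Nat.card_Ico, Nat.cast_sub (by omega)] at f1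
    refine le_trans ?_ f1
    rw [div_le_iff₀ hl0, mul_assoc, div_mul_cancel₀ _ hl0.ne']
    nlinarith
  · set y : ℕ := Nat.sqrt x with hy
    have hy1 : (y : ℝ) ≤ Real.sqrt x := Real.nat_sqrt_le_real_sqrt
    have hy2 : Real.sqrt x < (y : ℝ) + 1 := Real.real_sqrt_lt_nat_sqrt_succ
    have f3 := log_le_two_sqrt (show (0 : ℝ) < x by linarith)
    have f5 : Real.sqrt x * Real.sqrt x = x := Real.mul_self_sqrt (Nat.cast_nonneg x)
    have g1 : ∀ n ∈ Finset.range x, q n ≤ (if n < k then (1 : ℝ) else 0) +
        ((if n < y + 1 then (1 : ℝ) else 0) + 2 * |c₂| / Real.log x) := by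
      intro n hn
      have hnx := Finset.mem_range.mp hn
      have p1 : (0 : ℝ) ≤ 2 * |c₂| / Real.log x := by positivity
      have p2 : (0 : ℝ) ≤ if n < k then (1 : ℝ) else 0 := by split_ifs <;> norm_num
      have p3 : (0 : ℝ) ≤ if n < y + 1 then (1 : ℝ) else 0 := by split_ifs <;> norm_num
      by_cases hnk : n < k
      · rw [if_pos hnk]
        linarith [hq1 n]
      by_cases hny : n < y + 1
      · rw [if_pos hny]
        linarith [hq1 n]
      · obtain ⟨⟨-, g3⟩, g4⟩ := hk n (not_lt.mp hnk)
        have g5 : Real.sqrt x ≤ n := by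
          have : (y : ℝ) + 1 ≤ n := by exact_mod_cast not_lt.mp hny
          linarith
        have g6 : Real.log x / 2 ≤ Real.log n := by
          rw [← Real.log_sqrt (Nat.cast_nonneg x)]
          exact Real.log_le_log (Real.sqrt_pos.mpr (by linarith)) g5
        have g7 : c₂ / Real.log n ≤ |c₂| / (Real.log x / 2) :=
          div_le_div₀ (abs_nonneg _) (le_abs_self _) (by positivity) g6
        have g8 : |c₂| / (Real.log x / 2) = 2 * |c₂| / Real.log x := by field_simp
        linarith
    refine le_trans (Finset.sum_le_sum g1) ?_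
    rw [Finset.sum_add_distrib, Finset.sum_add_distrib, Finset.sum_boole, Finset.sum_boole,
      Finset.sum_const, nsmul_eq_mul, Finset.card_range]
    have g2 : (((Finset.range x).filter (fun n => n < k)).card : ℝ) ≤ k := by
      have : (Finset.range x).filter (fun n => n < k) ⊆ Finset.range k := fun n hn =>
        Finset.mem_range.mpr (Finset.mem_filter.mp hn).2
      have := Finset.card_le_card this
      rw [Finset.card_range] at this
      exact_mod_cast this
    have g3 : (((Finset.range x).filter (fun n => n < y + 1)).card : ℝ) ≤ (y : ℝ) + 1 := by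
      have : (Finset.range x).filter (fun n => n < y + 1) ⊆ Finset.range (y + 1) := fun n hn =>
        Finset.mem_range.mpr (Finset.mem_filter.mp hn).2
      have := Finset.card_le_card this
      rw [Finset.card_range] at this
      exact_mod_cast this
    have g4 : Real.log x * ((k : ℝ) + 1) ≤ x := by
      have := mul_le_mul_of_nonneg_right h2 (show (0 : ℝ) ≤ (k : ℝ) + 1 by positivity)
      have g3 : 1 / ((k : ℝ) + 1) * (x : ℝ) * ((k : ℝ) + 1) = x := by field_simp
      linarith
    have g5 : Real.sqrt x * Real.log x ≤ 2 * x := by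
      have := mul_le_mul_of_nonneg_left f3 (Real.sqrt_nonneg x)
      nlinarith
    have g6 : (k : ℝ) + (Real.sqrt x + 1 + x * (2 * |c₂| / Real.log x)) ≤
        (2 * |c₂| + 3) * x / Real.log x := by
      rw [le_div_iff₀ hl0]
      have g7 : (x * (2 * |c₂| / Real.log x)) * Real.log x = x * (2 * |c₂|) := by field_simp
      nlinarith
    linarith

end Pool.Agent.POM31
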