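import Pool.Agent.POM31.Sets
import Pool.Agent.CRM31.Prob

set_option autoImplicit false

open MeasureTheory ProbabilityTheory Filter Topology

namespace Pool.Agent.POM31

variable {Ω : Type*} [MeasurableSpace Ω]

/-- Almost surely every gap which ends at a large `a` has expected mass at most `4 log a`. -/
theorem ae_gap {μ : Measure Ω} [IsProbabilityMeasure μ] {A : ℕ → Set Ω}
    (hA : ∀ n, MeasurableSet (A n)) (hind : iIndepSet A μ) :
    ∀ᵐ ω ∂μ, ∃ M : ℕ, ∀ a, M ≤ a → ∀ v < a,
      (∀ m₁ ∈ Finset.Ico v a, ∀ m₂ ∈ Finset.Ico v a, ω ∈ A m₁ → ω ∈ A m₂ → m₁ = m₂) →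
      ∑ n ∈ Finset.Ico v a, μ.real (A n) ≤ 4 * Real.log a := by
  set Bad : ℕ → Set Ω := fun a => {ω | ¬ ∀ v < a,
      (∀ m₁ ∈ Finset.Ico v a, ∀ m₂ ∈ Finset.Ico v a, ω ∈ A m₁ → ω ∈ A m₂ → m₁ = m₂) →
      ∑ n ∈ Finset.Ico v a, μ.real (A n) ≤ 4 * Real.log a} with hBad
  have hb : ∀ a, μ.real (Bad a) ≤ Real.exp 1 * (1 / (a : ℝ) ^ 2) := by
    intro a
    rcases Nat.eq_zero_or_pos a with h0 | h0
    · have : Bad a = ∅ := by
        ext ω
        simp only [hBad, Set.mem_ofPred_eq, Set.mem_empty_iff_false, iff_false, not_not]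
        intro v hv
        omega
      rw [this]
      simp only [measureReal_empty]
      positivity
    have har : (0 : ℝ) < a := by exact_mod_cast h0
    set V := (Finset.range a).filter
      (fun v => 4 * Real.log a < ∑ n ∈ Finset.Ico v a, μ.real (A n)) with hV
    have hsub : Bad a ⊆ ⋃ v ∈ V,
        {ω | ∀ m₁ ∈ Finset.Ico v a, ∀ m₂ ∈ Finset.Ico v a, ω ∈ A m₁ → ω ∈ A m₂ → m₁ = m₂} := by
      intro ω hω
      simp only [hBad, Set.mem_ofPred_eq] at hω
      push Not at hω
      obtain ⟨v, hv, h1, h2⟩ := hω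
      simp only [Set.mem_iUnion]
      exact ⟨v, Finset.mem_filter.mpr ⟨Finset.mem_range.mpr hv, h2⟩, h1⟩
    refine le_trans (measureReal_mono hsub (measure_ne_top _ _)) ?_
    refine le_trans (measureReal_biUnion_finset_le _ _) ?_
    have h1 : ∀ v ∈ V, μ.real {ω | ∀ m₁ ∈ Finset.Ico v a, ∀ m₂ ∈ Finset.Ico v a,
        ω ∈ A m₁ → ω ∈ A m₂ → m₁ = m₂} ≤ Real.exp 1 * (1 / (a : ℝ) ^ 3) := by
      intro v hv
      obtain ⟨hv1, hv2⟩ := Finset.mem_filter.mp hv
      have hva := Finset.mem_range.mp hv1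
      refine le_trans (CRM31.few_le hA hind (Finset.nonempty_Ico.mpr hva)) ?_
      have h2 : ((Finset.Ico v a).card : ℝ) ≤ a := by
        rw [Nat.card_Ico]
        exact_mod_cast Nat.sub_le a v
      have h3 : Real.exp (- ∑ n ∈ Finset.Ico v a, μ.real (A n)) ≤ 1 / (a : ℝ) ^ 4 := by
        have h4 : Real.exp (- (4 * Real.log a)) = 1 / (a : ℝ) ^ 4 := by
          rw [Real.exp_neg, one_div]
          congr 1
          rw [show (4 : ℝ) * Real.log a = ((4 : ℕ) : ℝ) * Real.log a by norm_num,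
            Real.exp_nat_mul, Real.exp_log har]
        rw [← h4, Real.exp_le_exp]
        linarith
      have h4 : Real.exp 1 * ((Finset.Ico v a).card : ℝ) *
          Real.exp (- ∑ n ∈ Finset.Ico v a, μ.real (A n)) ≤
          Real.exp 1 * a * (1 / (a : ℝ) ^ 4) := by
        have := Real.exp_pos 1
        gcongr
      refine le_trans h4 (le_of_eq ?_)
      field_simp
    refine le_trans (Finset.sum_le_sum h1) ?_
    rw [Finset.sum_const, nsmul_eq_mul]
    have h2 : (V.card : ℝ) ≤ a := by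
      have := Finset.card_filter_le (Finset.range a)
        (fun v => 4 * Real.log a < ∑ n ∈ Finset.Ico v a, μ.real (A n))
      rw [Finset.card_range] at this
      exact_mod_cast this
    have h3 : (V.card : ℝ) * (Real.exp 1 * (1 / (a : ℝ) ^ 3)) ≤
        a * (Real.exp 1 * (1 / (a : ℝ) ^ 3)) := by
      have := Real.exp_pos 1
      gcongr
    refine le_trans h3 (le_of_eq ?_)
    field_simp
  have hs : Summable (fun a : ℕ => Real.exp 1 * (1 / (a : ℝ) ^ 2)) := by
    refine Summable.mul_left _ ?_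
    exact Real.summable_one_div_nat_pow.mpr (by norm_num)
  have := CRM31.bc μ Bad _ hs (Eventually.of_forall hb)
  filter_upwards [this] with ω hω
  obtain ⟨M, hM⟩ := eventually_atTop.mp hω
  refine ⟨M, fun a ha => ?_⟩
  have h1 := hM a ha
  simp only [hBad, Set.mem_ofPred_eq, not_not] at h1
  exact h1

end Pool.Agent.POM31
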