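import Pool.Agent.POM31.Sets

set_option autoImplicit false

open Filter Topology

namespace Pool.Agent.POM31

lemma log_top' : Tendsto (fun n : ℕ => Real.log (n : ℝ)) atTop atTop :=
  Real.tendsto_log_atTop.comp tendsto_natCast_atTop_atTop

section
variable {S : ℕ → Prop} (hinf : (Set.ofPred S).Infinite)
include hinf

lemma f_top : Tendsto (fun n : ℕ => Real.log (Nat.nth S n)) atTop atTop :=
  log_top'.comp (Nat.nth_strictMono hinf).tendsto_atTop

lemma f_mono : Monotone (fun n : ℕ => Real.log (Nat.nth S n)) := by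
  intro k l hkl
  show Real.log (Nat.nth S k) ≤ Real.log (Nat.nth S l)
  have h1 : Nat.nth S k ≤ Nat.nth S l := (Nat.nth_le_nth hinf).mpr hkl
  rcases Nat.eq_zero_or_pos (Nat.nth S k) with h | h
  · rw [h]; simp only [Nat.cast_zero, Real.log_zero]; exact Real.log_natCast_nonneg _
  · exact Real.log_le_log (by exact_mod_cast h) (by exact_mod_cast h1)

/-- Size of the elements. -/
lemma f_size (hch : Cheb S) : ∃ (n0 : ℕ) (D : ℝ), 1 ≤ n0 ∧ 0 ≤ D ∧ ∀ n, n0 ≤ n →
    2 ≤ Real.log (Nat.nth S n) ∧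
    Real.log n - D ≤ Real.log (Nat.nth S n) - Real.log (Real.log (Nat.nth S n)) ∧
    Real.log (Nat.nth S n) - Real.log (Real.log (Nat.nth S n)) ≤ Real.log n + D := by
  obtain ⟨c, C, hc, hcc⟩ := hch
  have hev := (Nat.nth_strictMono hinf).tendsto_atTop.eventually hcc
  obtain ⟨n0, h0⟩ := eventually_atTop.mp (hev.and ((f_top hinf).eventually_ge_atTop 2))
  refine ⟨max n0 1, |Real.log c| + |Real.log C|, le_max_right _ _, by positivity, fun n hn => ?_⟩
  obtain ⟨⟨h1, h2⟩, h3⟩ := h0 n (le_trans (le_max_left _ _) hn)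
  have hn1 : 1 ≤ n := le_trans (le_max_right _ _) hn
  have hnr : (0 : ℝ) < n := by exact_mod_cast hn1
  have hcnt : cnt S 0 (Nat.nth S n) = n := by
    classical
    rw [cnt_eq_count, Nat.count_nth_of_infinite hinf]
  rw [hcnt] at h1 h2
  set p : ℝ := ((Nat.nth S n : ℕ) : ℝ) with hp
  set u : ℝ := Real.log p with hu
  have hu0 : 0 < u := by linarith
  have hp0 : 0 < p := by
    by_contra hcon
    have : p = 0 := le_antisymm (not_lt.mp hcon) (Nat.cast_nonneg _)
    rw [hu, this, Real.log_zero] at hu0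
    exact lt_irrefl _ hu0
  have hC : 0 < C := by
    by_contra hcon
    have h4 : C * p / u ≤ 0 := div_nonpos_of_nonpos_of_nonneg
      (mul_nonpos_of_nonpos_of_nonneg (not_lt.mp hcon) hp0.le) hu0.le
    linarith
  refine ⟨h3, ?_, ?_⟩
  · have h4 : Real.log n ≤ Real.log (C * p / u) := Real.log_le_log hnr h2
    rw [Real.log_div (by positivity) hu0.ne', Real.log_mul hC.ne' hp0.ne'] at h4
    have h5 := le_abs_self (Real.log C)
    have h6 := abs_nonneg (Real.log c)
    linarith
  · have h4 : Real.log (c * p / u) ≤ Real.log n := Real.log_le_log (by positivity) h1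
    rw [Real.log_div (by positivity) hu0.ne', Real.log_mul hc.ne' hp0.ne'] at h4
    have h5 := neg_abs_le (Real.log c)
    have h6 := abs_nonneg (Real.log C)
    linarith

omit hinf in
lemma log_quarter {t : ℝ} (ht : 0 < t) : Real.log t ≤ t / 4 + 1 := by
  have h1 : Real.log t = Real.log (t / 4) + Real.log 4 := by
    rw [← Real.log_mul (by positivity) (by norm_num)]
    congr 1
    ring
  have h2 : Real.log (t / 4) ≤ t / 4 - 1 := Real.log_le_sub_one_of_pos (by positivity)
  have h3 : Real.log 4 ≤ 1.4 := by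
    have h4 : Real.log 4 = 2 * Real.log 2 := by
      rw [show (4 : ℝ) = 2 ^ 2 by norm_num, Real.log_pow]; norm_num
    have := Real.log_two_lt_d9
    rw [h4]; linarith
  linarith

/-- A good element in every window. -/
lemma good_window (hch : Cheb S) : ∃ (θ Λ : ℝ) (B : ℝ), 0 < θ ∧ 0 < Λ ∧ 0 ≤ B ∧
    ∀ᶠ m : ℕ in atTop, ∃ n : ℕ, θ * m ≤ n ∧ (n : ℝ) ≤ Λ * m ∧ Good S (Nat.nth S n) ∧
      Real.log (Nat.nth S n) ≤ 2 * Real.log n + B := by
  obtain ⟨n0, D, hn0, hD, hsize⟩ := f_size hinf hch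
  set f : ℕ → ℝ := fun n => Real.log (Nat.nth S n) with hf
  obtain ⟨Λ, hΛ⟩ := exists_nat_ge (8 * D + 8)
  have hΛ0 : (0 : ℝ) < Λ := by linarith
  refine ⟨Real.exp (-(2 * D + 2)), Λ, 2 * D, Real.exp_pos _, hΛ0, by positivity, ?_⟩
  filter_upwards [eventually_ge_atTop n0, (f_top hinf).eventually_gt_atTop (f n0 + 1)]
    with m hm hm2
  have hm2' : f n0 + 1 < f m := hm2
  have hm1 : 1 ≤ m := le_trans hn0 hm
  have hmr : (0 : ℝ) < m := by exact_mod_cast hm1
  set L : ℕ := 2 * Λ * m with hL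
  set h : ℕ → ℝ := fun n => f n - n / m with hh
  -- the largest maximiser
  obtain ⟨n, hnL, hmax, hmax2⟩ : ∃ n, n ≤ L ∧ (∀ k, k ≤ L → h k ≤ h n) ∧
      ∀ k, k ≤ L → n < k → h k < h n := by
    obtain ⟨n₁, hn₁, hm₁⟩ := Finset.exists_max_image (Finset.range (L + 1)) h
      ⟨0, Finset.mem_range.mpr (by omega)⟩
    have hn₁' := Finset.mem_range.mp hn₁
    set P : ℕ → Prop := fun n => ∀ k, k ≤ L → h k ≤ h n with hP
    have hP₁ : P n₁ := fun k hk => hm₁ k (Finset.mem_range.mpr (by omega))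
    classical
    refine ⟨Nat.findGreatest P L, Nat.findGreatest_le L, ?_, ?_⟩
    · exact Nat.findGreatest_spec (P := P) (show n₁ ≤ L by omega) hP₁
    · intro k hk hnk
      by_contra hcon
      have h0 : P (Nat.findGreatest P L) :=
        Nat.findGreatest_spec (P := P) (show n₁ ≤ L by omega) hP₁
      have h1 : h (Nat.findGreatest P L) ≤ h k := not_lt.mp hcon
      have h2 : P k := fun l hl => le_trans (h0 l hl) h1
      have h3 : k ≤ Nat.findGreatest P L := Nat.le_findGreatest hk h2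
      omega
  have hmL : m ≤ L := by
    have h1 : 1 ≤ Λ := by
      have : (1 : ℝ) ≤ Λ := by linarith
      exact_mod_cast this
    have h2 : 1 * m ≤ 2 * Λ * m := Nat.mul_le_mul_right m (by omega)
    omega
  have hhm : h m = f m - 1 := by
    simp only [hh]
    rw [div_self hmr.ne']
  have hnm : h m ≤ h n := hmax m hmL
  -- lower bound for `n`
  have hnn0 : n0 ≤ n := by
    by_contra hcon
    have h1 : f n ≤ f n0 := f_mono hinf (not_le.mp hcon).le
    have h2 : h n ≤ f n := by
      simp only [hh]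
      have : (0 : ℝ) ≤ (n : ℝ) / m := by positivity
      linarith
    rw [hhm] at hnm
    linarith
  have hnr : (0 : ℝ) < n := by
    have : 0 < n := by omega
    exact_mod_cast this
  obtain ⟨hv2, hv3, hv4⟩ := hsize m hm
  obtain ⟨hu2, hu3, hu4⟩ := hsize n hnn0
  have hfm : Real.log (Nat.nth S m) = f m := rfl
  have hfn : Real.log (Nat.nth S n) = f n := rfl
  rw [hfm] at hv2 hv3 hv4
  rw [hfn] at hu2 hu3 hu4
  have hlower : Real.exp (-(2 * D + 2)) * m ≤ n := by
    by_contra hcon
    push Not at hcon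
    have h1 : Real.log n < Real.log (Real.exp (-(2 * D + 2)) * m) := Real.log_lt_log hnr hcon
    rw [Real.log_mul (Real.exp_pos _).ne' hmr.ne', Real.log_exp] at h1
    have hnm' : n ≤ m := by
      have h2 : Real.exp (-(2 * D + 2)) ≤ 1 := by
        rw [Real.exp_le_one_iff]; linarith
      have h3 : (n : ℝ) ≤ m := by nlinarith
      exact_mod_cast h3
    have h2 : f n ≤ f m := f_mono hinf hnm'
    have h3 : Real.log (f n) ≤ Real.log (f m) := Real.log_le_log (by linarith) h2
    have h4 : h n ≤ f n := by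
      simp only [hh]
      have : (0 : ℝ) ≤ (n : ℝ) / m := by positivity
      linarith
    rw [hhm] at hnm
    linarith
  have hupper : (n : ℝ) ≤ Λ * m := by
    by_contra hcon
    push Not at hcon
    have ht : (Λ : ℝ) < n / m := by rwa [lt_div_iff₀ hmr]
    have hmn : m ≤ n := by
      have h1 : (1 : ℝ) ≤ Λ := by linarith
      have h3 : (m : ℝ) ≤ n := by nlinarith
      exact_mod_cast h3
    have h2 : f m ≤ f n := f_mono hinf hmn
    have hv0 : 0 < f m := by linarith
    have hu0 : 0 < f n := by linarith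
    have h3 : Real.log (f n) - Real.log (f m) ≤ (f n - f m) / 2 := by
      rw [← Real.log_div hu0.ne' hv0.ne']
      have h4 := Real.log_le_sub_one_of_pos (show 0 < f n / f m by positivity)
      have h5 : f n / f m - 1 = (f n - f m) / f m := by
        field_simp
      have h6 : (f n - f m) / f m ≤ (f n - f m) / 2 :=
        div_le_div_of_nonneg_left (by linarith) (by norm_num) hv2
      linarith
    have h4 : Real.log n - Real.log m = Real.log (n / m) :=
      (Real.log_div hnr.ne' hmr.ne').symm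
    have h5 := log_quarter (t := (n : ℝ) / m) (by positivity)
    have h6 : h n = f n - n / m := rfl
    rw [hhm, h6] at hnm
    linarith
  refine ⟨n, hlower, hupper, ?_, ?_⟩
  · -- goodness
    apply good_of_nth hinf
    intro i hi hin
    have hniL : n + i ≤ L := by
      have h1 : (n : ℝ) + n ≤ 2 * Λ * m := by linarith
      have h2 : n + n ≤ 2 * Λ * m := by exact_mod_cast h1
      omega
    have h1 := hmax2 (n + i) hniL (by omega)
    have h2 := hmax (n - i) (by omega)
    have h3 : f (n - i) + f (n + i) < f n + f n := by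
      simp only [hh] at h1 h2
      rw [Nat.cast_sub hin] at h2
      push_cast at h1
      have h4 : ((n : ℝ) + i) / m + ((n : ℝ) - i) / m = n / m + n / m := by ring
      linarith
    have hp : 0 < Nat.nth S n := by
      by_contra hcon
      have h0 : Nat.nth S n = 0 := by omega
      have h00 : f n = 0 := by simp only [hf]; rw [h0]; simp
      linarith
    have hp2 : Nat.nth S n < Nat.nth S (n + i) := (Nat.nth_lt_nth hinf).mpr (by omega)
    rcases Nat.eq_zero_or_pos (Nat.nth S (n - i)) with h0 | h0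
    · rw [h0, Nat.zero_mul]
      exact Nat.mul_pos hp hp
    · have e1 : (0 : ℝ) < Nat.nth S (n - i) := by exact_mod_cast h0
      have e2 : (0 : ℝ) < Nat.nth S (n + i) := by exact_mod_cast (by omega : 0 < Nat.nth S (n + i))
      have e3 : (0 : ℝ) < Nat.nth S n := by exact_mod_cast hp
      have h4 : Real.log ((Nat.nth S (n - i) : ℝ) * Nat.nth S (n + i)) <
          Real.log ((Nat.nth S n : ℝ) * Nat.nth S n) := by
        rw [Real.log_mul e1.ne' e2.ne', Real.log_mul e3.ne' e3.ne']
        exact h3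
      have h5 := (Real.log_lt_log_iff (by positivity) (by positivity)).mp h4
      exact_mod_cast h5
  · -- size
    show f n ≤ 2 * Real.log n + 2 * D
    have hu0 : 0 < f n := by linarith
    have h1 : Real.log (f n) ≤ f n / 2 := by
      have h2 := Real.log_le_sub_one_of_pos (show 0 < f n / 2 by positivity)
      have h3 : Real.log (f n) = Real.log (f n / 2) + Real.log 2 := by
        rw [← Real.log_mul (by positivity) (by norm_num)]
        congr 1
        ring
      have h4 := Real.log_two_lt_d9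
      linarith
    linarith

end

/-- Divergence of the series of `1 / (n log n)`. -/
lemma not_summable_log {C : ℝ} (hC : 3 ≤ C) :
    ¬ Summable (fun n : ℕ => 1 / (C * ((n : ℝ) + 1) * Real.log (C * ((n : ℝ) + 1)))) := by
  intro hs
  have hlog3 : ∀ n : ℕ, 1 < Real.log (C * ((n : ℝ) + 1)) := by
    intro n
    have h1 : (0 : ℝ) ≤ n := Nat.cast_nonneg n
    have h2 : Real.exp 1 < C * ((n : ℝ) + 1) := by
      have := Real.exp_one_lt_d9
      nlinarith
    exact (Real.lt_log_iff_exp_lt (by positivity)).mpr h2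
  have h0 : ∀ n : ℕ, 0 ≤ 1 / (C * ((n : ℝ) + 1) * Real.log (C * ((n : ℝ) + 1))) := by
    intro n
    have := hlog3 n
    positivity
  have hmono : ∀ ⦃m n : ℕ⦄, 0 < m → m ≤ n →
      1 / (C * ((n : ℝ) + 1) * Real.log (C * ((n : ℝ) + 1))) ≤
        1 / (C * ((m : ℝ) + 1) * Real.log (C * ((m : ℝ) + 1))) := by
    intro m n _ hmn
    have h1 : (m : ℝ) ≤ n := by exact_mod_cast hmn
    have h2 := hlog3 m
    have h3 := hlog3 n
    have h4 : Real.log (C * ((m : ℝ) + 1)) ≤ Real.log (C * ((n : ℝ) + 1)) :=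
      Real.log_le_log (by positivity) (by nlinarith)
    refine one_div_le_one_div_of_le (by positivity) ?_
    exact mul_le_mul (by nlinarith) h4 (by linarith) (by positivity)
  rw [← summable_condensed_iff_of_nonneg h0 hmono] at hs
  set D : ℝ := 2 * C * Real.log (2 * C) with hD
  have hl2C : 1 < Real.log (2 * C) := by
    refine (Real.lt_log_iff_exp_lt (by positivity)).mpr ?_
    have := Real.exp_one_lt_d9
    linarith
  have hDpos : 0 < D := by positivity
  have h2 : Summable (fun j : ℕ => (1 / D) * (1 / ((j : ℝ) + 1))) := by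
    refine Summable.of_nonneg_of_le (fun j => by positivity) (fun j => ?_) hs
    have hp : (1 : ℝ) ≤ 2 ^ j := one_le_pow₀ (by norm_num)
    push_cast
    have h3 : Real.log (C * ((2 : ℝ) ^ j + 1)) ≤ Real.log (2 * C) * ((j : ℝ) + 1) := by
      have h4 : C * ((2 : ℝ) ^ j + 1) ≤ 2 * C * 2 ^ j := by nlinarith
      have h5 := Real.log_le_log (by positivity) h4
      have h5' : Real.log (2 * C * 2 ^ j) = Real.log (2 * C) + j * Real.log 2 := by
        rw [Real.log_mul (by positivity) (by positivity), Real.log_pow]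
      rw [h5'] at h5
      have h6 : Real.log 2 ≤ Real.log (2 * C) := Real.log_le_log (by norm_num) (by linarith)
      have h7 : (0 : ℝ) ≤ j := Nat.cast_nonneg j
      nlinarith
    have h4 : 0 < Real.log (C * ((2 : ℝ) ^ j + 1)) := by
      refine Real.log_pos ?_
      nlinarith
    have h5 : C * ((2 : ℝ) ^ j + 1) * Real.log (C * ((2 : ℝ) ^ j + 1)) ≤
        2 ^ j * (D * ((j : ℝ) + 1)) := by
      calc C * ((2 : ℝ) ^ j + 1) * Real.log (C * ((2 : ℝ) ^ j + 1))
          ≤ (2 * C * 2 ^ j) * (Real.log (2 * C) * ((j : ℝ) + 1)) := by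
            refine mul_le_mul (by nlinarith) h3 h4.le (by positivity)
        _ = 2 ^ j * (D * ((j : ℝ) + 1)) := by rw [hD]; ring
    have h6 : (1 / D) * (1 / ((j : ℝ) + 1)) = 2 ^ j * (1 / (2 ^ j * (D * ((j : ℝ) + 1)))) := by
      field_simp
    rw [h6]
    refine mul_le_mul_of_nonneg_left ?_ (by positivity)
    exact one_div_le_one_div_of_le (by positivity) h5
  have h3 : Summable (fun j : ℕ => 1 / ((j : ℝ) + 1)) :=
    (summable_mul_left_iff (by positivity)).mp h2
  have h5 : Summable (fun j : ℕ => 1 / (j : ℝ)) := by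
    refine (summable_nat_add_iff 1).mp ?_
    refine h3.congr (fun j => ?_)
    push_cast
    rfl
  exact Real.not_summable_one_div_natCast h5

lemma tsum_log_top {C : ℝ} (hC : 3 ≤ C) (j0 : ℕ) :
    ∑' j : ℕ, ENNReal.ofReal (1 / (C * (((j + j0 : ℕ) : ℝ) + 1) *
      Real.log (C * (((j + j0 : ℕ) : ℝ) + 1)))) = ⊤ := by
  by_contra hcon
  have h1 := ENNReal.summable_toReal hcon
  have h2 : Summable (fun j : ℕ => 1 / (C * (((j + j0 : ℕ) : ℝ) + 1) *
      Real.log (C * (((j + j0 : ℕ) : ℝ) + 1)))) := by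
    refine h1.congr (fun j => ?_)
    rw [ENNReal.toReal_ofReal]
    have h3 : (0 : ℝ) ≤ ((j + j0 : ℕ) : ℝ) := Nat.cast_nonneg _
    have h4 : 0 ≤ Real.log (C * (((j + j0 : ℕ) : ℝ) + 1)) := Real.log_nonneg (by nlinarith)
    positivity
  exact not_summable_log hC ((summable_nat_add_iff j0
    (f := fun n : ℕ => 1 / (C * ((n : ℝ) + 1) * Real.log (C * ((n : ℝ) + 1))))).mp h2)

/-- The sum of `1 / (log a * log (log a))` over the good elements diverges. -/
theorem diverge {S : ℕ → Prop} (hinf : (Set.ofPred S).Infinite) (hch : Cheb S) (M : ℕ) :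
    ∑' a : ℕ, Set.indicator {a | M ≤ a ∧ Good S a}
      (fun a => ENNReal.ofReal (1 / (Real.log a * Real.log (Real.log a)))) a = ⊤ := by
  obtain ⟨θ, Λ, B, hθ, hΛ, hB, hw⟩ := good_window hinf hch
  obtain ⟨m0, hw⟩ := eventually_atTop.mp hw
  -- the ratio of the windows
  obtain ⟨K, hK⟩ := exists_nat_gt (max 2 (Λ / θ))
  have hK2 : 2 < (K : ℝ) := lt_of_le_of_lt (le_max_left _ _) hK
  have hKr : Λ / θ < K := lt_of_le_of_lt (le_max_right _ _) hK
  have hKn : 2 < K := by exact_mod_cast hK2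
  have hKpow : ∀ j : ℕ, j ≤ K ^ j := fun j => (Nat.lt_pow_self (by omega)).le
  -- start late
  obtain ⟨j1, hj1⟩ := exists_nat_ge (((m0 : ℝ) + M + 3) / θ + m0 + 1)
  have hstart : ∀ j, j1 ≤ j → m0 ≤ K ^ j ∧ (M : ℝ) ≤ θ * K ^ j ∧ 3 ≤ θ * K ^ j := by
    intro j hj
    have h1 : (j1 : ℝ) ≤ (K : ℝ) ^ j := by exact_mod_cast le_trans hj (hKpow j)
    have h2 : 0 ≤ ((m0 : ℝ) + M + 3) / θ := by positivity
    have h3 : (m0 : ℝ) ≤ (K : ℝ) ^ j := by linarith
    have h4 : ((m0 : ℝ) + M + 3) / θ ≤ (K : ℝ) ^ j := by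
      have : (0 : ℝ) ≤ m0 := Nat.cast_nonneg _
      linarith
    rw [div_le_iff₀ hθ] at h4
    have h5 : (0 : ℝ) ≤ m0 := Nat.cast_nonneg _
    have h6 : (0 : ℝ) ≤ M := Nat.cast_nonneg _
    refine ⟨by exact_mod_cast h3, by linarith, by linarith⟩
  have hch2 : ∀ j : ℕ, ∃ n : ℕ, j1 ≤ j → θ * (K ^ j : ℕ) ≤ n ∧ (n : ℝ) ≤ Λ * (K ^ j : ℕ) ∧
      Good S (Nat.nth S n) ∧ Real.log (Nat.nth S n) ≤ 2 * Real.log n + B := by
    intro j
    by_cases hj : j1 ≤ j
    · obtain ⟨n, h1, h2, h3, h4⟩ := hw (K ^ j) (hstart j hj).1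
      exact ⟨n, fun _ => ⟨h1, h2, h3, h4⟩⟩
    · exact ⟨0, fun h => absurd h hj⟩
  choose N hN using hch2
  have hmonoN : ∀ j, j1 ≤ j → N j < N (j + 1) := by
    intro j hj
    have h1 := (hN j hj).2.1
    have h2 := (hN (j + 1) (by omega)).1
    have h3 : Λ * ((K ^ j : ℕ) : ℝ) < θ * ((K ^ (j + 1) : ℕ) : ℝ) := by
      push_cast
      rw [pow_succ]
      have h4 : Λ < θ * K := by
        rw [div_lt_iff₀ hθ] at hKr
        linarith
      have h5 : (0 : ℝ) < (K : ℝ) ^ j := by positivity
      nlinarith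
    have h4 : (N j : ℝ) < N (j + 1) := by linarith
    exact_mod_cast h4
  have hstr : StrictMono (fun i : ℕ => N (i + j1)) := by
    refine strictMono_nat_of_lt_succ (fun i => ?_)
    have := hmonoN (i + j1) (by omega)
    rwa [show i + 1 + j1 = i + j1 + 1 by ring]
  have hinj : Function.Injective (fun i : ℕ => Nat.nth S (N (i + j1))) :=
    ((Nat.nth_strictMono hinf).comp hstr).injective
  -- compare
  set g : ℕ → ENNReal := fun a => Set.indicator {a | M ≤ a ∧ Good S a}
      (fun a => ENNReal.ofReal (1 / (Real.log a * Real.log (Real.log a)))) a with hg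
  have h1 : ∑' i : ℕ, g (Nat.nth S (N (i + j1))) ≤ ∑' a : ℕ, g a :=
    ENNReal.tsum_comp_le_tsum_of_injective hinj g
  -- size
  set C₃ : ℝ := 2 * (Real.log K + Real.log (Λ + 1) + B + 1) + 3 with hC3
  have hlK : 0 < Real.log K := Real.log_pos (by linarith)
  have hlΛ : 0 ≤ Real.log (Λ + 1) := Real.log_nonneg (by linarith)
  have hC3pos : 3 ≤ C₃ := by
    rw [hC3]
    have : 0 ≤ Real.log K + Real.log (Λ + 1) + B + 1 := by positivity
    linarith
  have h2 : ∀ i : ℕ, ENNReal.ofReal (1 / (C₃ * (((i + j1 : ℕ) : ℝ) + 1) *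
      Real.log (C₃ * (((i + j1 : ℕ) : ℝ) + 1)))) ≤ g (Nat.nth S (N (i + j1))) := by
    intro i
    obtain ⟨e1, e2, e3, e4⟩ := hN (i + j1) (by omega)
    obtain ⟨s1, s2, s3⟩ := hstart (i + j1) (by omega)
    push_cast at e1 e2
    have hNM : M ≤ N (i + j1) := by
      have : (M : ℝ) ≤ N (i + j1) := by linarith
      exact_mod_cast this
    have hN2 : (3 : ℝ) ≤ N (i + j1) := by linarith
    have hN1 : (1 : ℝ) ≤ N (i + j1) := by linarith
    have hidx : N (i + j1) ≤ Nat.nth S (N (i + j1)) := (Nat.nth_strictMono hinf).id_le _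
    have hmem : Nat.nth S (N (i + j1)) ∈ {a | M ≤ a ∧ Good S a} := ⟨le_trans hNM hidx, e3⟩
    simp only [hg]
    rw [Set.indicator_of_mem hmem]
    refine ENNReal.ofReal_le_ofReal ?_
    -- log bound
    have hlogN : Real.log (N (i + j1)) ≤ Real.log (Λ + 1) + ((i + j1 : ℕ) : ℝ) * Real.log K := by
      have h3 : (N (i + j1) : ℝ) ≤ (Λ + 1) * (K : ℝ) ^ (i + j1) := by
        have : (0 : ℝ) < (K : ℝ) ^ (i + j1) := by positivity
        nlinarith
      have h4 := Real.log_le_log (by linarith : (0 : ℝ) < N (i + j1)) h3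
      rw [Real.log_mul (by positivity) (by positivity), Real.log_pow] at h4
      exact h4
    have hjr : (0 : ℝ) ≤ ((i + j1 : ℕ) : ℝ) := Nat.cast_nonneg _
    have hbound : Real.log (Nat.nth S (N (i + j1))) ≤ C₃ * (((i + j1 : ℕ) : ℝ) + 1) := by
      rw [hC3]
      nlinarith
    have hS2 : (3 : ℝ) ≤ Nat.nth S (N (i + j1)) := by
      have : (N (i + j1) : ℝ) ≤ Nat.nth S (N (i + j1)) := by exact_mod_cast hidx
      linarith
    have hpos : 1 < Real.log (Nat.nth S (N (i + j1))) := by
      refine (Real.lt_log_iff_exp_lt (by linarith)).mpr ?_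
      have := Real.exp_one_lt_d9
      linarith
    have hpos2 : 0 < Real.log (Real.log (Nat.nth S (N (i + j1)))) := Real.log_pos hpos
    refine one_div_le_one_div_of_le (by positivity) ?_
    exact mul_le_mul hbound (Real.log_le_log (by linarith) hbound) hpos2.le (by positivity)
  have h3 : (⊤ : ENNReal) ≤ ∑' i : ℕ, g (Nat.nth S (N (i + j1))) := by
    rw [← tsum_log_top hC3pos j1]
    exact ENNReal.tsum_le_tsum h2
  exact top_le_iff.mp (le_trans h3 h1)

end Pool.Agent.POM31
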