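import Mathlib

set_option autoImplicit false

open Filter Topology

namespace Pool.Agent.POM31

open scoped Classical in
/-- The number of elements of `S` in `[u, v)`. -/
noncomputable def cnt (S : ℕ → Prop) (u v : ℕ) : ℕ := ((Finset.Ico u v).filter (fun m => S m)).card

/-- `a` is good: `a ^ 2` exceeds all products of symmetric pairs of elements. -/
def Good (S : ℕ → Prop) (a : ℕ) : Prop := S a ∧ ∀ b c, b < a → a < c → S b → S c →
  cnt S b a = cnt S (a + 1) (c + 1) → b * c < a * a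

/-- `a < a'` are consecutive elements and `a a'` exceeds all products of symmetric pairs. -/
def PP (S : ℕ → Prop) (a a' : ℕ) : Prop := S a ∧ S a' ∧ a < a' ∧ (∀ m, a < m → m < a' → ¬ S m) ∧
  ∀ b c, b < a → a' < c → S b → S c → cnt S b a = cnt S (a' + 1) (c + 1) → b * c < a * a'

/-- `S` with the element `x` added. -/
def ins (S : ℕ → Prop) (x : ℕ) : ℕ → Prop := fun m => S m ∨ m = x

/-- Chebyshev type bounds for the counting function. -/
def Cheb (S : ℕ → Prop) : Prop := ∃ c C : ℝ, 0 < c ∧ ∀ᶠ x : ℕ in atTop,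
  c * x / Real.log x ≤ cnt S 0 x ∧ (cnt S 0 x : ℝ) ≤ C * x / Real.log x

lemma cnt_add (S : ℕ → Prop) {u v w : ℕ} (h1 : u ≤ v) (h2 : v ≤ w) :
    cnt S u w = cnt S u v + cnt S v w := by
  classical
  unfold cnt
  rw [← Finset.Ico_union_Ico_eq_Ico h1 h2, Finset.filter_union, Finset.card_union_of_disjoint]
  exact Finset.disjoint_filter_filter (Finset.Ico_disjoint_Ico_consecutive u v w)

lemma cnt_congr {S T : ℕ → Prop} {u v : ℕ} (h : ∀ m, u ≤ m → m < v → (S m ↔ T m)) :
    cnt S u v = cnt T u v := by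
  classical
  unfold cnt
  congr 1
  refine Finset.filter_congr (fun m hm => ?_)
  have := Finset.mem_Ico.mp hm
  exact h m this.1 this.2

lemma cnt_zero {S : ℕ → Prop} {u v : ℕ} (h : ∀ m, u ≤ m → m < v → ¬ S m) : cnt S u v = 0 := by
  classical
  unfold cnt
  rw [Finset.card_eq_zero, Finset.filter_eq_empty_iff]
  intro m hm
  have := Finset.mem_Ico.mp hm
  exact h m this.1 this.2

lemma cnt_one {S : ℕ → Prop} {a : ℕ} (h : S a) : cnt S a (a + 1) = 1 := by
  classical
  unfold cnt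
  have : (Finset.Ico a (a + 1)).filter (fun m => S m) = {a} := by
    ext m
    simp only [Finset.mem_filter, Finset.mem_Ico, Finset.mem_singleton]
    constructor
    · rintro ⟨h1, -⟩; omega
    · rintro rfl; exact ⟨by omega, h⟩
  rw [this, Finset.card_singleton]

lemma cnt_ins_of_not {S : ℕ → Prop} {x u v : ℕ} (h : x < u ∨ v ≤ x) :
    cnt (ins S x) u v = cnt S u v := by
  refine cnt_congr (fun m h1 h2 => ?_)
  unfold ins
  constructor
  · rintro (h3 | h3)
    · exact h3
    · omega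
  · intro h3; exact Or.inl h3

lemma cnt_ins_of_mem {S : ℕ → Prop} {x u v : ℕ} (hx : ¬ S x) (h1 : u ≤ x) (h2 : x < v) :
    cnt (ins S x) u v = cnt S u v + 1 := by
  have e1 : cnt (ins S x) u v = cnt (ins S x) u x + (cnt (ins S x) x (x + 1) +
      cnt (ins S x) (x + 1) v) := by
    rw [← cnt_add _ (Nat.le_succ x) h2, ← cnt_add _ h1 (by omega)]
  have e2 : cnt S u v = cnt S u x + (cnt S x (x + 1) + cnt S (x + 1) v) := by
    rw [← cnt_add _ (Nat.le_succ x) h2, ← cnt_add _ h1 (by omega)]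
  have e3 : cnt (ins S x) u x = cnt S u x := cnt_ins_of_not (Or.inr le_rfl)
  have e4 : cnt (ins S x) (x + 1) v = cnt S (x + 1) v := cnt_ins_of_not (Or.inl (Nat.lt_succ_self x))
  have e5 : cnt (ins S x) x (x + 1) = 1 := cnt_one (Or.inr rfl)
  have e6 : cnt S x (x + 1) = 0 := cnt_zero (fun m h3 h4 => by
    have : m = x := by omega
    subst this; exact hx)
  omega

/-- Deleting the predecessor `x` of a good element creates a pair with property (P). -/
lemma del_PP {S : ℕ → Prop} {x a a' : ℕ} (hx : ¬ S x) (hG : Good (ins S x) a) (hxa : x < a)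
    (hno : ∀ m, x < m → m < a → ¬ S m) (ha' : S a') (haa' : a < a')
    (hno' : ∀ m, a < m → m < a' → ¬ S m) : PP S a a' := by
  have hSa : S a := by
    rcases hG.1 with h | h
    · exact h
    · omega
  refine ⟨hSa, ha', haa', hno', ?_⟩
  intro b c hba hac hb hc hcnt
  have hbx : b ≠ x := fun h => hx (h ▸ hb)
  have hbx' : b < x := by
    by_contra hcon
    exact hno b (by omega) hba hb
  have h1 : cnt (ins S x) b a = cnt S b a + 1 := cnt_ins_of_mem hx hbx'.le hxa
  have h2 : cnt (ins S x) (a + 1) (c + 1) = cnt S (a + 1) (c + 1) :=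
    cnt_ins_of_not (Or.inl (by omega))
  have h3 : cnt S (a + 1) (c + 1) = 1 + cnt S (a' + 1) (c + 1) := by
    rw [cnt_add S (show a + 1 ≤ a' by omega) (show a' ≤ c + 1 by omega),
      cnt_add S (show a' ≤ a' + 1 by omega) (show a' + 1 ≤ c + 1 by omega), cnt_one ha',
      cnt_zero (fun m h4 h5 => hno' m (by omega) h5)]
    omega
  have h4 := hG.2 b c hba (by omega) (Or.inl hb) (Or.inl hc) (by omega)
  exact lt_trans h4 (Nat.mul_lt_mul_of_pos_left haa' (by omega))

/-- If adding `x₂` right before `a₂` destroys all pairs with property (P) beyond `M`, then `a₂` is the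
successor of any `a₁ < a₂` which starts such a pair. -/
lemma no_far {S : ℕ → Prop} {M x₂ a₁ a₁' a₂ : ℕ} (hinf : ∀ n, ∃ m, n ≤ m ∧ S m)
    (hP : PP S a₁ a₁') (hM : M ≤ a₁) (hNP : ∀ a a', M ≤ a → ¬ PP (ins S x₂) a a')
    (hx₂ : ¬ S x₂) (ha₂ : S a₂) (hno₂ : ∀ m, x₂ < m → m < a₂ → ¬ S m)
    (h12 : a₁ < a₂) : a₂ = a₁' := by
  classical
  obtain ⟨hSa, hSa', haa', hno, hprod⟩ := hP
  by_contra hne
  have h1 : a₁' < a₂ := by
    by_contra hcon
    exact hno a₂ h12 (by omega) ha₂
  have h2 : a₁' < x₂ := by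
    by_contra hcon
    have h3 : a₁' ≠ x₂ := fun h => hx₂ (h ▸ hSa')
    exact hno₂ a₁' (by omega) h1 hSa'
  refine hNP a₁ a₁' hM ⟨Or.inl hSa, Or.inl hSa', haa', ?_, ?_⟩
  · intro m h3 h4 h5
    rcases h5 with h5 | h5
    · exact hno m h3 h4 h5
    · omega
  · intro b c hba hac hb hc hcnt
    have hb' : S b := by
      rcases hb with h | h
      · exact h
      · omega
    rw [cnt_ins_of_not (Or.inr (by omega))] at hcnt
    rcases lt_or_ge c x₂ with h | h
    · have hc' : S c := by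
        rcases hc with h3 | h3
        · exact h3
        · omega
      rw [cnt_ins_of_not (Or.inr (by omega))] at hcnt
      exact hprod b c hba hac hb' hc' hcnt
    · rw [cnt_ins_of_mem hx₂ (by omega) (by omega)] at hcnt
      -- the next element after `c`
      have hex : ∃ m, c + 1 ≤ m ∧ S m := hinf (c + 1)
      set c' := Nat.find hex with hc'
      have hc1 := Nat.find_spec hex
      have hc2 : ∀ m, c + 1 ≤ m → m < c' → ¬ S m := fun m h3 h4 h5 =>
        Nat.find_min hex h4 ⟨h3, h5⟩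
      have h3 : cnt S (a₁' + 1) (c' + 1) = cnt S (a₁' + 1) (c + 1) + 1 := by
        rw [cnt_add S (show a₁' + 1 ≤ c + 1 by omega) (show c + 1 ≤ c' + 1 by omega),
          cnt_add S hc1.1 (Nat.le_succ c'), cnt_one hc1.2,
          cnt_zero (fun m h4 h5 => hc2 m h4 h5)]
      have h4 := hprod b c' hba (by omega) hb' hc1.2 (by omega)
      exact lt_of_le_of_lt (Nat.mul_le_mul_left b (by omega)) h4

lemma cnt_eq_count (S : ℕ → Prop) [DecidablePred S] (n : ℕ) : cnt S 0 n = Nat.count S n := by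
  rw [Nat.count_eq_card_filter_range]
  unfold cnt
  rw [Finset.range_eq_Ico]
  congr 1
  ext m
  simp

section
variable {S : ℕ → Prop} (hinf : (Set.ofPred S).Infinite)
include hinf

lemma cnt_nth_nth {k l : ℕ} (h : k ≤ l) : cnt S (Nat.nth S k) (Nat.nth S l) = l - k := by
  classical
  have h1 : Nat.nth S k ≤ Nat.nth S l := (Nat.nth_le_nth hinf).mpr h
  have h2 := cnt_add S (Nat.zero_le _) h1
  rw [cnt_eq_count, cnt_eq_count, Nat.count_nth_of_infinite hinf,
    Nat.count_nth_of_infinite hinf] at h2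
  omega

lemma cnt_succ_nth {k l : ℕ} (h : k ≤ l) :
    cnt S (Nat.nth S k + 1) (Nat.nth S l + 1) = l - k := by
  have h1 : Nat.nth S k ≤ Nat.nth S l := (Nat.nth_le_nth hinf).mpr h
  have e1 : cnt S (Nat.nth S k) (Nat.nth S l + 1) = cnt S (Nat.nth S k) (Nat.nth S l) + 1 := by
    rw [cnt_add S h1 (Nat.le_succ _), cnt_one (Nat.nth_mem_of_infinite hinf l)]
  have e2 : cnt S (Nat.nth S k) (Nat.nth S l + 1) = 1 +
      cnt S (Nat.nth S k + 1) (Nat.nth S l + 1) := by
    rw [cnt_add S (Nat.le_succ _) (show Nat.nth S k + 1 ≤ Nat.nth S l + 1 by omega),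
      cnt_one (Nat.nth_mem_of_infinite hinf k)]
  have e3 := cnt_nth_nth hinf h
  omega

lemma exists_nth {a : ℕ} (ha : S a) : ∃ k, Nat.nth S k = a := by
  have : a ∈ Set.range (Nat.nth S) := by rw [Nat.range_nth_of_infinite hinf]; exact ha
  exact this

/-- A product condition on indices gives a good element. -/
lemma good_of_nth {n : ℕ} (h : ∀ i, 1 ≤ i → i ≤ n →
    Nat.nth S (n - i) * Nat.nth S (n + i) < Nat.nth S n * Nat.nth S n) :
    Good S (Nat.nth S n) := by
  refine ⟨Nat.nth_mem_of_infinite hinf n, ?_⟩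
  intro b c hb hc hSb hSc hcnt
  obtain ⟨k, rfl⟩ := exists_nth hinf hSb
  obtain ⟨l, rfl⟩ := exists_nth hinf hSc
  have hk : k < n := (Nat.nth_lt_nth hinf).mp hb
  have hl : n < l := (Nat.nth_lt_nth hinf).mp hc
  rw [cnt_nth_nth hinf hk.le, cnt_succ_nth hinf hl.le] at hcnt
  have h1 := h (n - k) (by omega) (by omega)
  rw [show n - (n - k) = k by omega, show n + (n - k) = l by omega] at h1
  exact h1

/-- Pairs with property (P) in terms of indices. -/
lemma PP_nth {a a' : ℕ} (h : PP S a a') : ∃ m, Nat.nth S m = a ∧ Nat.nth S (m + 1) = a' ∧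
    ∀ i, 1 ≤ i → i ≤ m → Nat.nth S (m - i) * Nat.nth S (m + 1 + i) <
      Nat.nth S m * Nat.nth S (m + 1) := by
  obtain ⟨hSa, hSa', haa', hno, hprod⟩ := h
  obtain ⟨m, rfl⟩ := exists_nth hinf hSa
  obtain ⟨l, rfl⟩ := exists_nth hinf hSa'
  have hml : m < l := (Nat.nth_lt_nth hinf).mp haa'
  have hl : l = m + 1 := by
    by_contra hcon
    have h1 : Nat.nth S m < Nat.nth S (m + 1) := (Nat.nth_lt_nth hinf).mpr (by omega)
    have h2 : Nat.nth S (m + 1) < Nat.nth S l := (Nat.nth_lt_nth hinf).mpr (by omega)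
    exact hno _ h1 h2 (Nat.nth_mem_of_infinite hinf _)
  subst hl
  refine ⟨m, rfl, rfl, fun i hi him => ?_⟩
  have h1 : Nat.nth S (m - i) < Nat.nth S m := (Nat.nth_lt_nth hinf).mpr (by omega)
  have h2 : Nat.nth S (m + 1) < Nat.nth S (m + 1 + i) := (Nat.nth_lt_nth hinf).mpr (by omega)
  refine hprod _ _ h1 h2 (Nat.nth_mem_of_infinite hinf _) (Nat.nth_mem_of_infinite hinf _) ?_
  rw [cnt_nth_nth hinf (by omega), cnt_succ_nth hinf (by omega)]
  omega

/-- If there are pairs with property (P) arbitrarily far out, the index set of the problem is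
infinite. -/
lemma infinite_of_PP (h : ∀ M, ∃ a a', M ≤ a ∧ PP S a a') :
    Set.Infinite {n : ℕ | 1 ≤ n ∧ ∀ i : ℕ, 1 ≤ i → i ≤ n - 1 →
      Nat.nth S (n - i - 1) * Nat.nth S (n + i) < Nat.nth S (n - 1) * Nat.nth S n} := by
  refine Set.infinite_of_not_bddAbove ?_
  rintro ⟨B, hB⟩
  obtain ⟨a, a', hM, hP⟩ := h (Nat.nth S B)
  obtain ⟨m, hm, hm', hprod⟩ := PP_nth hinf hP
  have h1 : B ≤ m := by
    rw [← hm] at hM
    exact (Nat.nth_le_nth hinf).mp hM
  have h2 : m + 1 ∈ {n : ℕ | 1 ≤ n ∧ ∀ i : ℕ, 1 ≤ i → i ≤ n - 1 →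
      Nat.nth S (n - i - 1) * Nat.nth S (n + i) < Nat.nth S (n - 1) * Nat.nth S n} := by
    refine ⟨by omega, fun i hi him => ?_⟩
    have h3 := hprod i hi (by omega)
    rw [show m + 1 - i - 1 = m - i by omega, show m + 1 - 1 = m by omega]
    exact h3
  have := hB h2
  omega

end

end Pool.Agent.POM31
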