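import Mathlib
import Pool.Agent.POM31.Sets
import Pool.Agent.CRM31.Prob

set_option autoImplicit false

open Filter Topology MeasureTheory ProbabilityTheory

namespace Pool.Agent.POM31

theorem cnt_mono_right (S : ℕ → Prop) {x y : ℕ} (h : x ≤ y) : cnt S 0 x ≤ cnt S 0 y := by
  classical
  unfold cnt
  apply Finset.card_le_card
  apply Finset.filter_subset_filter
  exact Finset.Ico_subset_Ico_right h

theorem cnt_eq_sum {Ω : Type*} (A : ℕ → Set Ω) (ω : Ω) (x : ℕ) :
    (cnt (fun m => ω ∈ A m) 0 x : ℝ) =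
      ∑ n ∈ Finset.range x, (A n).indicator (fun _ => (1 : ℝ)) ω := by
  classical
  unfold cnt
  rw [Finset.card_filter]
  push_cast
  rw [Nat.Ico_zero_eq_range]
  apply Finset.sum_congr rfl
  intro n _
  simp [Set.indicator_apply]

theorem cheb_prob {Ω : Type*} [MeasurableSpace Ω] {μ : Measure Ω} [IsProbabilityMeasure μ]
    {A : ℕ → Set Ω} (hA : ∀ n, MeasurableSet (A n)) (hind : iIndepSet A μ) (x : ℕ)
    (hE : 0 < ∑ n ∈ Finset.range x, μ.real (A n)) :
    μ.real {ω | (∑ n ∈ Finset.range x, μ.real (A n)) / 2 ≤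
      |(cnt (fun m => ω ∈ A m) 0 x : ℝ) - ∑ n ∈ Finset.range x, μ.real (A n)|} ≤
      4 / ∑ n ∈ Finset.range x, μ.real (A n) := by
  set E := ∑ n ∈ Finset.range x, μ.real (A n) with hEdef
  set Y : ℕ → Ω → ℝ := fun n => (A n).indicator (fun _ => (1 : ℝ)) with hY
  have hYm : ∀ n, MemLp (Y n) 2 μ := by
    intro n
    exact memLp_indicator_const 2 (hA n) 1 (Or.inr (measure_ne_top μ _))
  have hYind : iIndepFun Y μ := hind.iIndepFun_indicator
  have hvar : Var[∑ n ∈ Finset.range x, Y n; μ] ≤ E := by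
    rw [IndepFun.variance_sum (fun n _ => hYm n) (fun i _ j _ hij => hYind.indepFun hij)]
    rw [hEdef]
    apply Finset.sum_le_sum
    intro n _
    refine (variance_le_expectation_sq (hYm n).aestronglyMeasurable).trans (le_of_eq ?_)
    have h1 : (Y n ^ 2) = Y n := by
      funext ω
      simp only [Pi.pow_apply, hY]
      by_cases h : ω ∈ A n
      · rw [Set.indicator_of_mem h]; norm_num
      · rw [Set.indicator_of_notMem h]; norm_num
    rw [h1]
    simp only [hY]
    rw [integral_indicator_const (1 : ℝ) (hA n)]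
    simp
  have hmem : MemLp (∑ n ∈ Finset.range x, Y n) 2 μ := memLp_finsetSum' _ (fun n _ => hYm n)
  have hmean : ∫ ω, (∑ n ∈ Finset.range x, Y n) ω ∂μ = E := by
    simp only [Finset.sum_apply]
    rw [integral_finsetSum _ (fun n _ => (hYm n).integrable one_le_two)]
    rw [hEdef]
    apply Finset.sum_congr rfl
    intro n _
    simp only [hY]
    rw [integral_indicator_const (1 : ℝ) (hA n)]
    simp
  have h2 := meas_ge_le_variance_div_sq hmem (c := E / 2) (by linarith)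
  rw [hmean] at h2
  have h3 : {ω | E / 2 ≤ |(cnt (fun m => ω ∈ A m) 0 x : ℝ) - E|} =
      {ω | E / 2 ≤ |(∑ n ∈ Finset.range x, Y n) ω - E|} := by
    ext ω
    simp only [Set.mem_ofPred_eq, Finset.sum_apply]
    rw [cnt_eq_sum]
  rw [h3, Measure.real]
  have h4 : Var[∑ n ∈ Finset.range x, Y n; μ] / (E / 2) ^ 2 ≤ 4 / E := by
    rw [div_le_div_iff₀ (by positivity) hE]
    nlinarith
  calc _ ≤ (ENNReal.ofReal (Var[∑ n ∈ Finset.range x, Y n; μ] / (E / 2) ^ 2)).toReal :=
        ENNReal.toReal_mono ENNReal.ofReal_ne_top h2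
    _ = Var[∑ n ∈ Finset.range x, Y n; μ] / (E / 2) ^ 2 :=
        ENNReal.toReal_ofReal (div_nonneg (variance_nonneg _ _) (by positivity))
    _ ≤ 4 / E := h4

/-- ROW LLN -/
theorem ae_cheb {Ω : Type*} [MeasurableSpace Ω] {μ : Measure Ω} [IsProbabilityMeasure μ]
    {A : ℕ → Set Ω} (hA : ∀ n, MeasurableSet (A n)) (hind : iIndepSet A μ) {c C : ℝ} (hc : 0 < c)
    (hq : ∀ᶠ x : ℕ in atTop, c * x / Real.log x ≤ ∑ n ∈ Finset.range x, μ.real (A n) ∧
      ∑ n ∈ Finset.range x, μ.real (A n) ≤ C * x / Real.log x) :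
    ∀ᵐ ω ∂μ, Cheb (fun m => ω ∈ A m) := by
  set E : ℕ → ℝ := fun x => ∑ n ∈ Finset.range x, μ.real (A n) with hE
  have hpow : Tendsto (fun j : ℕ => 2 ^ j) atTop (atTop : Filter ℕ) :=
    tendsto_pow_atTop_atTop_of_one_lt (by norm_num)
  have hq2 := hpow.eventually hq
  have hlog2 : 0 < Real.log 2 := Real.log_pos (by norm_num)
  have hlp : ∀ j : ℕ, Real.log (((2 ^ j : ℕ)) : ℝ) = j * Real.log 2 := by
    intro j
    push_cast
    rw [Real.log_pow]
  have hbc : ∀ᵐ ω ∂μ, ∀ᶠ j : ℕ in atTop,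
      ω ∉ {ω | E (2 ^ j) / 2 ≤ |(cnt (fun m => ω ∈ A m) 0 (2 ^ j) : ℝ) - E (2 ^ j)|} := by
    apply Pool.Agent.CRM31.bc μ _ (fun j : ℕ => (4 * Real.log 2 / c) * ((j : ℝ) ^ 1 * (1 / 2 : ℝ) ^ j))
    · apply Summable.mul_left
      exact summable_pow_mul_geometric_of_norm_lt_one 1 (by norm_num)
    · filter_upwards [hq2, eventually_ge_atTop 1] with j hj hj1
      have hj0 : (0 : ℝ) < j := by exact_mod_cast hj1
      have h1 := hj.1
      rw [hlp] at h1
      have h2 : 0 < c * ((2 ^ j : ℕ) : ℝ) / (j * Real.log 2) := by positivity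
      have h3 : 0 < E (2 ^ j) := lt_of_lt_of_le h2 h1
      refine (cheb_prob hA hind (2 ^ j) h3).trans ?_
      calc 4 / E (2 ^ j) ≤ 4 / (c * ((2 ^ j : ℕ) : ℝ) / (j * Real.log 2)) :=
            div_le_div_of_nonneg_left (by norm_num) h2 h1
        _ = (4 * Real.log 2 / c) * ((j : ℝ) ^ 1 * (1 / 2 : ℝ) ^ j) := by
            push_cast
            rw [one_div, inv_pow]
            field_simp
  obtain ⟨N, hN⟩ := eventually_atTop.mp hq2
  filter_upwards [hbc] with ω hω
  obtain ⟨M, hM⟩ := eventually_atTop.mp hω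
  refine ⟨c / 4, 3 * C, by linarith, ?_⟩
  have hbig : ∀ᶠ x : ℕ in atTop, 2 ^ (max N M + 1) ≤ x := eventually_ge_atTop _
  filter_upwards [hbig] with x hx
  set j := Nat.log 2 x with hj
  have hx0 : x ≠ 0 := by
    have : 0 < 2 ^ (max N M + 1) := by positivity
    omega
  have hj1 : 2 ^ j ≤ x := Nat.pow_log_le_self 2 hx0
  have hj2 : x < 2 ^ (j + 1) := Nat.lt_pow_succ_log_self (by norm_num) x
  have hjl : max N M + 1 ≤ j := by
    rw [hj]
    exact (Nat.le_log_iff_pow_le (by norm_num) hx0).mpr hx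
  have hjN : N ≤ j := by
    have := le_max_left N M
    omega
  have hjM : M ≤ j := by
    have := le_max_right N M
    omega
  have hjpos : (0 : ℝ) < j := by
    have : 0 < j := by omega
    exact_mod_cast this
  have hxpos : (0 : ℝ) < x := by
    have : 0 < x := Nat.pos_of_ne_zero hx0
    exact_mod_cast this
  have e1 : ((2 ^ j : ℕ) : ℝ) ≤ x := by exact_mod_cast hj1
  have e2 : (x : ℝ) ≤ 2 * ((2 ^ j : ℕ) : ℝ) := by
    have : x ≤ 2 * 2 ^ j := by
      rw [pow_succ] at hj2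
      omega
    exact_mod_cast this
  have hlx1 : (j : ℝ) * Real.log 2 ≤ Real.log x := by
    rw [← hlp]
    exact Real.log_le_log (by positivity) e1
  have hlx2 : Real.log x ≤ ((j + 1 : ℕ) : ℝ) * Real.log 2 := by
    rw [← hlp]
    apply Real.log_le_log hxpos
    exact_mod_cast hj2.le
  have hlj : 0 < (j : ℝ) * Real.log 2 := by positivity
  have hlx0 : 0 < Real.log x := lt_of_lt_of_le hlj hlx1
  constructor
  · have h1 := (hN j hjN).1
    rw [hlp] at h1
    have h2 := hM j hjM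
    simp only [not_le] at h2
    have h3 := (abs_lt.mp h2).1
    have h4 : ((cnt (fun m => ω ∈ A m) 0 (2 ^ j) : ℕ) : ℝ) ≤ cnt (fun m => ω ∈ A m) 0 x := by
      exact_mod_cast cnt_mono_right _ hj1
    have h5 : c / 4 * x / Real.log x ≤ (c * ((2 ^ j : ℕ) : ℝ) / (j * Real.log 2)) / 2 := by
      calc c / 4 * x / Real.log x ≤ c / 4 * x / (j * Real.log 2) :=
            div_le_div_of_nonneg_left (by positivity) hlj hlx1
        _ ≤ c / 4 * (2 * ((2 ^ j : ℕ) : ℝ)) / (j * Real.log 2) := by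
            apply div_le_div_of_nonneg_right _ hlj.le
            exact mul_le_mul_of_nonneg_left e2 (by linarith)
        _ = _ := by ring
    have h6 : c * ((2 ^ j : ℕ) : ℝ) / (j * Real.log 2) ≤ E (2 ^ j) := h1
    linarith
  · have hN1 := hN (j + 1) (by omega)
    have h1 := hN1.2
    have h1' := hN1.1
    rw [hlp] at h1 h1'
    have hl1 : 0 < ((j + 1 : ℕ) : ℝ) * Real.log 2 := by positivity
    have h2 := hM (j + 1) (by omega)
    simp only [not_le] at h2
    have h3 := (abs_lt.mp h2).2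
    have h4 : ((cnt (fun m => ω ∈ A m) 0 x : ℕ) : ℝ) ≤ cnt (fun m => ω ∈ A m) 0 (2 ^ (j + 1)) := by
      exact_mod_cast cnt_mono_right _ hj2.le
    have hCc : c ≤ C := by
      have h7 : c * ((2 ^ (j + 1) : ℕ) : ℝ) / (((j + 1 : ℕ) : ℝ) * Real.log 2) ≤
          C * ((2 ^ (j + 1) : ℕ) : ℝ) / (((j + 1 : ℕ) : ℝ) * Real.log 2) := h1'.trans h1
      have h8 := (div_le_div_iff_of_pos_right hl1).mp h7
      have h9 : (0 : ℝ) < ((2 ^ (j + 1) : ℕ) : ℝ) := by positivity
      exact le_of_mul_le_mul_right h8 h9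
    have hC0 : 0 ≤ C := hc.le.trans hCc
    have h5 : 3 / 2 * (C * ((2 ^ (j + 1) : ℕ) : ℝ) / (((j + 1 : ℕ) : ℝ) * Real.log 2)) ≤
        3 * C * x / Real.log x := by
      have e3 : ((2 ^ (j + 1) : ℕ) : ℝ) ≤ 2 * x := by
        push_cast
        push_cast at e1
        rw [pow_succ]
        linarith
      calc _ ≤ 3 / 2 * (C * (2 * x) / (((j + 1 : ℕ) : ℝ) * Real.log 2)) := by
            apply mul_le_mul_of_nonneg_left _ (by norm_num)
            apply div_le_div_of_nonneg_right _ hl1.le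
            exact mul_le_mul_of_nonneg_left e3 hC0
        _ ≤ 3 / 2 * (C * (2 * x) / Real.log x) := by
            apply mul_le_mul_of_nonneg_left _ (by norm_num)
            exact div_le_div_of_nonneg_left (by positivity) hlx0 hlx2
        _ = _ := by ring
    have h6 : E (2 ^ (j + 1)) ≤ C * ((2 ^ (j + 1) : ℕ) : ℝ) / (((j + 1 : ℕ) : ℝ) * Real.log 2) := h1
    linarith

end Pool.Agent.POM31
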