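import Pool.Agent.POM31.Hull
import Pool.Agent.POM31.Gap

set_option autoImplicit false

open MeasureTheory ProbabilityTheory Filter Topology

namespace Pool.Agent.POM31

/-- There are arbitrarily large elements. -/
def Unb (S : ℕ → Prop) : Prop := ∀ n, ∃ m, n ≤ m ∧ S m

/-- Every interval which ends at some `a ≥ M` and contains at most one element has small mass. -/
def GapB (q : ℕ → ℝ) (M : ℕ) (S : ℕ → Prop) : Prop := ∀ a, M ≤ a → ∀ v < a,
  (∀ m₁ ∈ Finset.Ico v a, ∀ m₂ ∈ Finset.Ico v a, S m₁ → S m₂ → m₁ = m₂) →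
    ∑ n ∈ Finset.Ico v a, q n ≤ 4 * Real.log a

/-- There is no pair with property (P) beyond `M`. -/
def NoPP (M : ℕ) (S : ℕ → Prop) : Prop := ∀ a a', M ≤ a → ¬ PP S a a'

/-- `x` is the predecessor of the good element `a` in a configuration without (P) beyond `M`. -/
def HH (q : ℕ → ℝ) (M k x a : ℕ) (S : ℕ → Prop) : Prop :=
  Unb S ∧ GapB q M S ∧ NoPP M S ∧ M ≤ a ∧ k ≤ x ∧ Good S a ∧ x < a ∧ ∀ m, x < m → m < a → ¬ S m

/-- The configurations from which the deletion of a point `x` leads to `S`. -/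
def DD (q : ℕ → ℝ) (M k x a : ℕ) (S : ℕ → Prop) : Prop := ¬ S x ∧ HH q M k x a (ins S x)

lemma unb_of_ins {S : ℕ → Prop} {x : ℕ} (h : Unb (ins S x)) : Unb S := by
  intro n
  obtain ⟨m, hm1, hm2⟩ := h (max n (x + 1))
  have h1 := le_max_left n (x + 1)
  have h2 := le_max_right n (x + 1)
  refine ⟨m, by omega, ?_⟩
  rcases hm2 with h3 | h3
  · exact h3
  · omega

/-- Only two values of `a` are possible. -/
lemma two_values (q : ℕ → ℝ) (M k : ℕ) (S : ℕ → Prop) :
    ∃ s : Finset ℕ, s.card ≤ 2 ∧ ∀ x a, DD q M k x a S → a ∈ s := by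
  classical
  by_cases hex : ∃ a, ∃ x, DD q M k x a S
  · set a₁ := Nat.find hex with ha₁
    obtain ⟨x₁, hx₁, hH₁⟩ := Nat.find_spec hex
    rw [← ha₁] at hH₁
    obtain ⟨hU, -, -, hM, -, hG, hxa, hno⟩ := hH₁
    have hU' : Unb S := unb_of_ins hU
    have hex' : ∃ m, a₁ + 1 ≤ m ∧ S m := hU' (a₁ + 1)
    set a₁' := Nat.find hex' with ha₁'
    have h1 := Nat.find_spec hex'
    rw [← ha₁'] at h1
    have h2 : ∀ m, a₁ < m → m < a₁' → ¬ S m := fun m h3 h4 h5 =>
      Nat.find_min hex' h4 ⟨h3, h5⟩
    have hPP : PP S a₁ a₁' := by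
      refine del_PP hx₁ hG hxa ?_ h1.2 (by omega) h2
      intro m h3 h4 h5
      exact hno m h3 h4 (Or.inl h5)
    refine ⟨{a₁, a₁'}, Finset.card_le_two, ?_⟩
    intro x₂ a₂ hD₂
    have h3 : a₁ ≤ a₂ := Nat.find_min' hex ⟨x₂, hD₂⟩
    obtain ⟨hx₂, hU₂, -, hN₂, hM₂, -, hG₂, hxa₂, hno₂⟩ := hD₂
    rcases Nat.lt_or_eq_of_le h3 with h4 | h4
    · have hSa₂ : S a₂ := by
        rcases hG₂.1 with h | h
        · exact h
        · omega
      have := no_far hU' hPP hM hN₂ hx₂ hSa₂ (fun m h5 h6 h7 => hno₂ m h5 h6 (Or.inl h7)) h4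
      simp [this]
    · simp [h4]
  · refine ⟨∅, by simp, fun x a h => ?_⟩
    exact absurd ⟨a, x, h⟩ hex

/-- For fixed `a` the possible `x` lie in an interval of small mass. -/
lemma gap_values {q : ℕ → ℝ} {M k a : ℕ} {S : ℕ → Prop} (hex : ∃ x, DD q M k x a S) :
    ∃ v, v < a ∧ ∑ n ∈ Finset.Ico v a, q n ≤ 4 * Real.log a ∧
      ∀ x, DD q M k x a S → x ∈ Finset.Ico v a := by
  classical
  set v := Nat.find hex with hv
  obtain ⟨hxv, hH⟩ := Nat.find_spec hex
  rw [← hv] at hxv hH
  obtain ⟨hU, hB, hN, hM, hk, hG, hva, hno⟩ := hH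
  refine ⟨v, hva, ?_, ?_⟩
  · refine hB a hM v hva ?_
    intro m₁ h₁ m₂ h₂ hS₁ hS₂
    have e₁ := Finset.mem_Ico.mp h₁
    have e₂ := Finset.mem_Ico.mp h₂
    have f₁ : m₁ = v := by
      by_contra hcon
      exact hno m₁ (by omega) e₁.2 hS₁
    have f₂ : m₂ = v := by
      by_contra hcon
      exact hno m₂ (by omega) e₂.2 hS₂
    omega
  · intro x hx
    refine Finset.mem_Ico.mpr ⟨Nat.find_min' hex hx, ?_⟩
    exact hx.2.2.2.2.2.2.2.1

open scoped Classical in
/-- Pointwise bound for the sum over all configurations which lead to `S`. -/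
lemma pointwise {q : ℕ → ℝ} (hq : ∀ n, 0 ≤ q n) (M k : ℕ) (S : ℕ → Prop) :
    ∑' p : ℕ × ℕ, (if DD q M k p.2 p.1 S then
      ENNReal.ofReal (1 / Real.log p.1) * ENNReal.ofReal (q p.2) else 0) ≤ 8 := by
  rw [ENNReal.tsum_prod (f := fun a x => (if DD q M k x a S then
      ENNReal.ofReal (1 / Real.log a) * ENNReal.ofReal (q x) else 0))]
  obtain ⟨s, hs, hs'⟩ := two_values q M k S
  have h1 : ∀ a, ∑' x, (if DD q M k x a S then
      ENNReal.ofReal (1 / Real.log a) * ENNReal.ofReal (q x) else 0) ≤ if a ∈ s then 4 else 0 := by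
    intro a
    by_cases hex : ∃ x, DD q M k x a S
    · obtain ⟨v, hva, hsum, hv⟩ := gap_values hex
      obtain ⟨x₀, hx₀⟩ := hex
      rw [if_pos (hs' x₀ a hx₀)]
      rw [tsum_eq_sum (s := Finset.Ico v a) (fun x hx => by
        rw [if_neg (fun h => hx (hv x h))])]
      calc ∑ x ∈ Finset.Ico v a, (if DD q M k x a S then
            ENNReal.ofReal (1 / Real.log a) * ENNReal.ofReal (q x) else 0)
          ≤ ∑ x ∈ Finset.Ico v a, ENNReal.ofReal (1 / Real.log a) * ENNReal.ofReal (q x) := by
            refine Finset.sum_le_sum (fun x _ => ?_)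
            split_ifs
            · exact le_rfl
            · exact bot_le
        _ = ENNReal.ofReal (1 / Real.log a) * ENNReal.ofReal (∑ x ∈ Finset.Ico v a, q x) := by
            rw [← Finset.mul_sum, ENNReal.ofReal_sum_of_nonneg (fun n _ => hq n)]
        _ ≤ ENNReal.ofReal (1 / Real.log a) * ENNReal.ofReal (4 * Real.log a) := by
            gcongr
        _ = ENNReal.ofReal (1 / Real.log a * (4 * Real.log a)) := by
            rw [ENNReal.ofReal_mul (one_div_nonneg.mpr (Real.log_natCast_nonneg a))]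
        _ ≤ ENNReal.ofReal 4 := by
            refine ENNReal.ofReal_le_ofReal ?_
            rcases eq_or_ne (Real.log a) 0 with h | h
            · rw [h]; norm_num
            · have : 1 / Real.log a * (4 * Real.log a) = 4 := by field_simp
              rw [this]
        _ = 4 := by norm_num
    · have : ∀ x, (if DD q M k x a S then
          ENNReal.ofReal (1 / Real.log a) * ENNReal.ofReal (q x) else 0) = 0 := by
        intro x
        rw [if_neg (fun h => hex ⟨x, h⟩)]
      simp only [this, tsum_zero]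
      exact bot_le
  calc ∑' a, ∑' x, (if DD q M k x a S then
      ENNReal.ofReal (1 / Real.log a) * ENNReal.ofReal (q x) else 0)
      ≤ ∑' a, (if a ∈ s then (4 : ENNReal) else 0) := ENNReal.tsum_le_tsum h1
    _ = ∑ a ∈ s, (4 : ENNReal) := by
        rw [tsum_eq_sum (s := s) (fun a ha => by rw [if_neg ha])]
        exact Finset.sum_congr rfl (fun a ha => by rw [if_pos ha])
    _ = s.card * 4 := by rw [Finset.sum_const, nsmul_eq_mul]
    _ ≤ 2 * 4 := by
        gcongr
        exact_mod_cast hs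
    _ = 8 := by norm_num

/-! Measurability -/

lemma meas_S (m : ℕ) : Measurable (fun S : ℕ → Prop => S m) := measurable_pi_apply m

lemma meas_cnt (u v : ℕ) : Measurable (fun S : ℕ → Prop => cnt S u v) := by
  classical
  unfold cnt
  simp only [Finset.card_filter]
  refine Finset.measurable_sum _ (fun m _ => ?_)
  exact Measurable.ite (measurableSet_setOfPred.mpr (meas_S m)) measurable_const measurable_const

lemma meas_cnt_eq (u v w z : ℕ) : Measurable (fun S : ℕ → Prop => cnt S u v = cnt S w z) :=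
  measurableSet_setOfPred.mp (measurableSet_eq_fun (meas_cnt u v) (meas_cnt w z))

lemma meas_c {α : Type*} [MeasurableSpace α] (P : Prop) : Measurable (fun _ : α => P) :=
  measurable_const

lemma meas_Good (a : ℕ) : Measurable (fun S : ℕ → Prop => Good S a) := by
  unfold Good
  refine (meas_S a).and (Measurable.forall fun b => Measurable.forall fun c => ?_)
  exact (meas_c _).imp ((meas_c _).imp ((meas_S b).imp ((meas_S c).imp
    ((meas_cnt_eq _ _ _ _).imp (meas_c _)))))

lemma meas_PP (a a' : ℕ) : Measurable (fun S : ℕ → Prop => PP S a a') := by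
  unfold PP
  refine (meas_S a).and ((meas_S a').and ((meas_c _).and (Measurable.and ?_ ?_)))
  · exact Measurable.forall fun m => (meas_c _).imp ((meas_c _).imp (meas_S m).not)
  · exact Measurable.forall fun b => Measurable.forall fun c => (meas_c _).imp ((meas_c _).imp
      ((meas_S b).imp ((meas_S c).imp ((meas_cnt_eq _ _ _ _).imp (meas_c _)))))

lemma meas_Unb : Measurable (fun S : ℕ → Prop => Unb S) := by
  unfold Unb
  exact Measurable.forall fun n => Measurable.exists fun m => (meas_c _).and (meas_S m)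

lemma meas_GapB (q : ℕ → ℝ) (M : ℕ) : Measurable (fun S : ℕ → Prop => GapB q M S) := by
  unfold GapB
  refine Measurable.forall fun a => (meas_c _).imp (Measurable.forall fun v => (meas_c _).imp
    (Measurable.imp ?_ (meas_c _)))
  exact Measurable.forall fun m₁ => (meas_c _).imp (Measurable.forall fun m₂ => (meas_c _).imp
    ((meas_S m₁).imp ((meas_S m₂).imp (meas_c _))))

lemma meas_NoPP (M : ℕ) : Measurable (fun S : ℕ → Prop => NoPP M S) := by
  unfold NoPP
  exact Measurable.forall fun a => Measurable.forall fun a' => (meas_c _).imp (meas_PP a a').not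

lemma meas_HH (q : ℕ → ℝ) (M k x a : ℕ) : Measurable (fun S : ℕ → Prop => HH q M k x a S) := by
  unfold HH
  refine meas_Unb.and ((meas_GapB q M).and ((meas_NoPP M).and ((meas_c _).and ((meas_c _).and
    ((meas_Good a).and ((meas_c _).and ?_))))))
  exact Measurable.forall fun m => (meas_c _).imp ((meas_c _).imp (meas_S m).not)

end Pool.Agent.POM31
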